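import Mathlib

set_option autoImplicit false

/-!
# Popular independent sets, greedy coverings, and the number of patterns
-/

namespace Pool.Agent.N96.FF

open Module

/-- Let `a i`, `i ∈ ι`, be vectors and let all members `A` of the nonempty family `Q` of subsets of `ι`
miss at most `k` elements and have rank at least `ρ`. Then some independent `r`-set `I` is contained in
at least the fraction `(ρ choose r) / (ρ + k choose r)` of the members of `Q`. -/
theorem popular {ι V : Type*} [Fintype ι] [DecidableEq ι] [AddCommGroup V] [Module ℝ V]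
    [FiniteDimensional ℝ V] (a : ι → V) (k ρ : ℕ) (Q : Finset (Finset ι)) (hQ : Q.Nonempty)
    (h1 : ∀ A ∈ Q, Aᶜ.card ≤ k)
    (h2 : ∀ A ∈ Q, ρ ≤ finrank ℝ (Submodule.span ℝ (a '' (A : Set ι)))) (r : ℕ) (hr : r ≤ ρ) :
    ∃ I : Finset ι, I.card = r ∧ LinearIndepOn ℝ a (I : Set ι) ∧
      Q.card * ρ.choose r ≤ (Q.filter (fun A => I ⊆ A)).card * (ρ + k).choose r := by
  classical
  induction r with
  | zero =>
    refine ⟨∅, rfl, ?_, ?_⟩
    · rw [Finset.coe_empty]; exact linearIndepOn_empty _ _
    · simp
  | succ r ih =>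
    obtain ⟨I, hI, hli, hc⟩ := ih (by omega)
    set QI := Q.filter (fun A => I ⊆ A) with hQI
    have hQIpos : 0 < QI.card := by
      by_contra h
      have h0 : QI.card = 0 := by omega
      rw [h0, zero_mul] at hc
      have : 0 < Q.card * ρ.choose r :=
        Nat.mul_pos (Finset.card_pos.2 hQ) (Nat.choose_pos (by omega))
      omega
    set R : Finset ι := Finset.univ.filter (fun i => a i ∉ Submodule.span ℝ (a '' (I : Set ι)))
      with hR
    have hIfin : finrank ℝ (Submodule.span ℝ (a '' (I : Set ι))) ≤ r := by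
      have h : ((I.image a : Finset V) : Set V) = a '' (I : Set ι) := by simp
      rw [← h]
      exact (finrank_span_finset_le_card _).trans (Finset.card_image_le.trans hI.le)
    -- members of `QI` contain many elements of `R`
    have hA1 : ∀ A ∈ QI, R.card - k ≤ (A ∩ R).card := by
      intro A hA
      have hA' : A ∈ Q := (Finset.mem_filter.1 hA).1
      have h3 : R.card ≤ (A ∩ R).card + Aᶜ.card := by
        calc R.card ≤ ((A ∩ R) ∪ Aᶜ).card := by
              apply Finset.card_le_card
              intro i hi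
              by_cases hiA : i ∈ A
              · exact Finset.mem_union_left _ (Finset.mem_inter.2 ⟨hiA, hi⟩)
              · exact Finset.mem_union_right _ (Finset.mem_compl.2 hiA)
          _ ≤ _ := Finset.card_union_le _ _
      have := h1 A hA'
      omega
    have hA2 : ∀ A ∈ QI, ρ - r ≤ (A ∩ R).card := by
      intro A hA
      have hA' : A ∈ Q := (Finset.mem_filter.1 hA).1
      have h3 := h2 A hA'
      have h4 : Submodule.span ℝ (a '' (A : Set ι)) ≤
          Submodule.span ℝ (a '' (I : Set ι)) ⊔
            Submodule.span ℝ (a '' ((A ∩ R : Finset ι) : Set ι)) := by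
        rw [Submodule.span_le]
        rintro _ ⟨i, hi, rfl⟩
        by_cases hiR : i ∈ R
        · exact Submodule.mem_sup_right (Submodule.subset_span
            ⟨i, Finset.mem_coe.2 (Finset.mem_inter.2 ⟨hi, hiR⟩), rfl⟩)
        · apply Submodule.mem_sup_left
          by_contra hcon
          exact hiR (Finset.mem_filter.2 ⟨Finset.mem_univ _, hcon⟩)
      have h5 : finrank ℝ (Submodule.span ℝ (a '' ((A ∩ R : Finset ι) : Set ι))) ≤
          (A ∩ R).card := by
        have h : (((A ∩ R).image a : Finset V) : Set V) = a '' ((A ∩ R : Finset ι) : Set ι) := by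
          simp
        rw [← h]
        exact (finrank_span_finset_le_card _).trans Finset.card_image_le
      have h6 := Submodule.finrank_mono h4
      have h7 := Submodule.finrank_add_le_finrank_add_finrank
        (Submodule.span ℝ (a '' (I : Set ι)))
        (Submodule.span ℝ (a '' ((A ∩ R : Finset ι) : Set ι)))
      omega
    -- double counting
    have hdc : ∑ i ∈ R, (QI.filter (fun A => i ∈ A)).card = ∑ A ∈ QI, (A ∩ R).card := by
      have e1 : ∀ i, (QI.filter (fun A => i ∈ A)).card = ∑ A ∈ QI, if i ∈ A then 1 else 0 := by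
        intro i; rw [Finset.card_filter]
      have e2 : ∀ A : Finset ι, (A ∩ R).card = ∑ i ∈ R, if i ∈ A then 1 else 0 := by
        intro A
        rw [← Finset.card_filter]
        congr 1
        ext i; simp [and_comm]
      simp only [e1, e2]
      exact Finset.sum_comm
    set α : ℕ := max (R.card - k) (ρ - r) with hα
    have hαA : ∀ A ∈ QI, α ≤ (A ∩ R).card := fun A hA => max_le (hA1 A hA) (hA2 A hA)
    have hsum : QI.card * α ≤ ∑ i ∈ R, (QI.filter (fun A => i ∈ A)).card := by
      rw [hdc, ← smul_eq_mul]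
      exact Finset.card_nsmul_le_sum _ _ _ hαA
    have hαpos : 0 < α := lt_of_lt_of_le (by omega : 0 < ρ - r) (le_max_right _ _)
    obtain ⟨A0, hA0⟩ := Finset.card_pos.1 hQIpos
    have hRpos : 0 < R.card := by
      have h8 := hαA A0 hA0
      have h9 : (A0 ∩ R).card ≤ R.card := Finset.card_le_card Finset.inter_subset_right
      omega
    obtain ⟨i, hiR, hi⟩ : ∃ i ∈ R, QI.card * α ≤ (QI.filter (fun A => i ∈ A)).card * R.card := by
      by_contra hcon
      push Not at hcon
      have h10 : ∑ i ∈ R, (QI.filter (fun A => i ∈ A)).card * R.card <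
          ∑ i ∈ R, QI.card * α :=
        Finset.sum_lt_sum_of_nonempty (Finset.card_pos.1 hRpos) hcon
      rw [← Finset.sum_mul, Finset.sum_const, smul_eq_mul, mul_comm R.card] at h10
      have h11 := lt_of_mul_lt_mul_right h10 (Nat.zero_le _)
      omega
    have hkey : (ρ - r) * R.card ≤ α * (ρ - r + k) := by
      by_cases hc' : R.card ≤ ρ - r + k
      · exact Nat.mul_le_mul (le_max_right _ _) hc'
      · push Not at hc'
        have hαle : R.card - k ≤ α := le_max_left _ _
        obtain ⟨t, ht⟩ : ∃ t, R.card = ρ - r + k + t := ⟨R.card - (ρ - r + k), by omega⟩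
        have h12 : ρ - r + t ≤ α := by omega
        calc (ρ - r) * R.card = (ρ - r) * (ρ - r + k) + (ρ - r) * t := by rw [ht]; ring
          _ ≤ (ρ - r) * (ρ - r + k) + t * (ρ - r + k) := by
              apply Nat.add_le_add_left
              rw [mul_comm (ρ - r) t]
              exact Nat.mul_le_mul_left t (by omega)
          _ = (ρ - r + t) * (ρ - r + k) := by ring
          _ ≤ α * (ρ - r + k) := Nat.mul_le_mul_right _ h12
    have hkey2 : QI.card * (ρ - r) ≤ (QI.filter (fun A => i ∈ A)).card * (ρ - r + k) := by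
      have h13 : QI.card * (ρ - r) * R.card ≤
          (QI.filter (fun A => i ∈ A)).card * (ρ - r + k) * R.card := by
        calc QI.card * (ρ - r) * R.card = QI.card * ((ρ - r) * R.card) := by ring
          _ ≤ QI.card * (α * (ρ - r + k)) := Nat.mul_le_mul_left _ hkey
          _ = (QI.card * α) * (ρ - r + k) := by ring
          _ ≤ ((QI.filter (fun A => i ∈ A)).card * R.card) * (ρ - r + k) :=
              Nat.mul_le_mul_right _ hi
          _ = _ := by ring
      exact Nat.le_of_mul_le_mul_right h13 hRpos
    have hispan : a i ∉ Submodule.span ℝ (a '' (I : Set ι)) := (Finset.mem_filter.1 hiR).2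
    have hiI : i ∉ I := fun h => hispan (Submodule.subset_span ⟨i, h, rfl⟩)
    refine ⟨insert i I, ?_, ?_, ?_⟩
    · rw [Finset.card_insert_of_notMem hiI, hI]
    · rw [Finset.coe_insert]
      exact hli.insert hispan
    · have hfil : Q.filter (fun A => insert i I ⊆ A) = QI.filter (fun A => i ∈ A) := by
        ext A
        simp only [hQI, Finset.mem_filter, Finset.insert_subset_iff]
        tauto
      rw [hfil]
      have c1 : ρ.choose (r + 1) * (r + 1) = ρ.choose r * (ρ - r) := Nat.choose_succ_right_eq _ _
      have c2 : (ρ + k).choose (r + 1) * (r + 1) = (ρ + k).choose r * (ρ - r + k) := by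
        rw [Nat.choose_succ_right_eq]
        congr 1
        omega
      have h14 : Q.card * ρ.choose (r + 1) * (r + 1) ≤
          (QI.filter (fun A => i ∈ A)).card * (ρ + k).choose (r + 1) * (r + 1) := by
        calc Q.card * ρ.choose (r + 1) * (r + 1) = Q.card * (ρ.choose (r + 1) * (r + 1)) := by ring
          _ = (Q.card * ρ.choose r) * (ρ - r) := by rw [c1]; ring
          _ ≤ (QI.card * (ρ + k).choose r) * (ρ - r) := Nat.mul_le_mul_right _ hc
          _ = (QI.card * (ρ - r)) * (ρ + k).choose r := by ring
          _ ≤ ((QI.filter (fun A => i ∈ A)).card * (ρ - r + k)) * (ρ + k).choose r :=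
              Nat.mul_le_mul_right _ hkey2
          _ = (QI.filter (fun A => i ∈ A)).card * ((ρ + k).choose r * (ρ - r + k)) := by ring
          _ = _ := by rw [← c2]; ring
      exact Nat.le_of_mul_le_mul_right h14 (Nat.succ_pos r)

/-- Greedy covering. -/
theorem greedy {α β : Type*} [DecidableEq β] (P : Finset α) (rel : β → α → Prop)
    [∀ I A, Decidable (rel I A)] (good : β → Prop) (p : ℝ) (hp1 : p ≤ 1)
    (h : ∀ Q ⊆ P, Q.Nonempty → ∃ I, good I ∧ p * Q.card ≤ (Q.filter (rel I)).card) (T : ℕ) :
    ∃ F : Finset β, F.card ≤ T ∧ (∀ I ∈ F, good I) ∧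
      ((P.filter (fun A => ∀ I ∈ F, ¬ rel I A)).card : ℝ) ≤ (1 - p) ^ T * P.card := by
  classical
  induction T with
  | zero => exact ⟨∅, by simp, by simp, by simp⟩
  | succ T ih =>
    obtain ⟨F, hF, hg, hc⟩ := ih
    set Q := P.filter (fun A => ∀ I ∈ F, ¬ rel I A) with hQ
    by_cases hne : Q.Nonempty
    · obtain ⟨I, hI, hpI⟩ := h Q (Finset.filter_subset _ _) hne
      refine ⟨insert I F, (Finset.card_insert_le _ _).trans (by omega), ?_, ?_⟩
      · intro J hJ
        rcases Finset.mem_insert.1 hJ with rfl | hJ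
        · exact hI
        · exact hg J hJ
      · have e1 : P.filter (fun A => ∀ J ∈ insert I F, ¬ rel J A) =
            Q.filter (fun A => ¬ rel I A) := by
          ext A
          simp only [hQ, Finset.mem_filter, Finset.mem_insert, forall_eq_or_imp]
          tauto
        rw [e1]
        have e2 : ((Q.filter (rel I)).card : ℝ) + ((Q.filter (fun A => ¬ rel I A)).card : ℝ) =
            Q.card := by
          exact_mod_cast Finset.card_filter_add_card_filter_not (s := Q) (rel I)
        have e3 : ((Q.filter (fun A => ¬ rel I A)).card : ℝ) ≤ (1 - p) * Q.card := by linarith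
        calc ((Q.filter (fun A => ¬ rel I A)).card : ℝ) ≤ (1 - p) * Q.card := e3
          _ ≤ (1 - p) * ((1 - p) ^ T * P.card) := by
              apply mul_le_mul_of_nonneg_left hc (by linarith)
          _ = _ := by ring
    · refine ⟨F, by omega, hg, ?_⟩
      rw [← hQ, Finset.not_nonempty_iff_eq_empty.1 hne, Finset.card_empty, Nat.cast_zero]
      have : 0 ≤ 1 - p := by linarith
      positivity

/-- Greedy covering, complete. -/
theorem greedy' {α β : Type*} [DecidableEq β] (P : Finset α) (rel : β → α → Prop)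
    [∀ I A, Decidable (rel I A)] (good : β → Prop) (p M : ℝ) (hp : 0 < p) (hp1 : p ≤ 1)
    (hM : (P.card : ℝ) ≤ Real.exp M) (hM0 : 0 ≤ M)
    (h : ∀ Q ⊆ P, Q.Nonempty → ∃ I, good I ∧ p * Q.card ≤ (Q.filter (rel I)).card) :
    ∃ F : Finset β, (F.card : ℝ) ≤ M / p + 1 ∧ (∀ I ∈ F, good I) ∧
      ∀ A ∈ P, ∃ I ∈ F, rel I A := by
  classical
  set T : ℕ := ⌊M / p⌋₊ + 1 with hT
  obtain ⟨F, hF, hg, hc⟩ := greedy P rel good p hp1 h T
  refine ⟨F, ?_, hg, ?_⟩
  · have h1 : (⌊M / p⌋₊ : ℝ) ≤ M / p := Nat.floor_le (by positivity)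
    have h2 : (F.card : ℝ) ≤ T := by exact_mod_cast hF
    rw [hT] at h2
    push_cast at h2
    linarith
  · intro A hA
    by_contra hcon
    push Not at hcon
    have h1 : (1 : ℝ) ≤ ((P.filter (fun A => ∀ I ∈ F, ¬ rel I A)).card : ℝ) := by
      have : 0 < (P.filter (fun A => ∀ I ∈ F, ¬ rel I A)).card :=
        Finset.card_pos.2 ⟨A, Finset.mem_filter.2 ⟨hA, hcon⟩⟩
      exact_mod_cast this
    have h2 : M / p < T := by
      rw [hT]; push_cast
      exact Nat.lt_floor_add_one _
    have h3 : M < p * T := by
      rw [div_lt_iff₀ hp] at h2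
      linarith
    have h4 : (1 - p) ^ T ≤ Real.exp (-(p * T)) := by
      have h5 : 1 - p ≤ Real.exp (-p) := by
        have := Real.add_one_le_exp (-p); linarith
      calc (1 - p) ^ T ≤ Real.exp (-p) ^ T := pow_le_pow_left₀ (by linarith) h5 T
        _ = Real.exp (-(p * T)) := by rw [← Real.exp_nat_mul]; ring_nf
    have h6 : (1 - p) ^ T * (P.card : ℝ) ≤ Real.exp (-(p * T)) * Real.exp M := by
      apply mul_le_mul h4 hM (by positivity) (by positivity)
    rw [← Real.exp_add] at h6
    have h7 : Real.exp (-(p * T) + M) < 1 := by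
      rw [Real.exp_lt_one_iff]; linarith
    linarith

/-- the number of subsets of size at most `k` of an `m`-set -/
theorem card_small {ι : Type*} [Fintype ι] [DecidableEq ι] (M : Finset ι) (k : ℕ)
    (P : Finset (Finset ι)) (hP : ∀ A ∈ P, A ⊆ M ∧ A.card ≤ k) :
    P.card ≤ (M.card + 1) ^ k := by
  classical
  induction k generalizing P with
  | zero =>
    have : P ⊆ {∅} := by
      intro A hA
      rw [Finset.mem_singleton]
      exact Finset.card_eq_zero.1 (Nat.le_zero.1 (hP A hA).2)
    simpa using Finset.card_le_card this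
  | succ k ih =>
    -- `A` is `A'` or `insert i A'` with `A'` smaller
    set P' : Finset (Finset ι) := M.powerset.filter (fun A => A.card ≤ k) with hP'
    have h1 : P'.card ≤ (M.card + 1) ^ k := ih P' (by
      intro A hA
      rw [hP', Finset.mem_filter, Finset.mem_powerset] at hA
      exact hA)
    have h2 : P ⊆ P' ∪ (M ×ˢ P').image (fun q => insert q.1 q.2) := by
      intro A hA
      obtain ⟨hAM, hAc⟩ := hP A hA
      by_cases hk : A.card ≤ k
      · exact Finset.mem_union_left _ (Finset.mem_filter.2 ⟨Finset.mem_powerset.2 hAM, hk⟩)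
      · have hpos : 0 < A.card := by omega
        obtain ⟨i, hi⟩ := Finset.card_pos.1 hpos
        refine Finset.mem_union_right _ (Finset.mem_image.2 ⟨(i, A.erase i), ?_, ?_⟩)
        · rw [Finset.mem_product]
          refine ⟨hAM hi, Finset.mem_filter.2 ⟨Finset.mem_powerset.2
            ((Finset.erase_subset _ _).trans hAM), ?_⟩⟩
          rw [Finset.card_erase_of_mem hi]
          omega
        · exact Finset.insert_erase hi
    calc P.card ≤ (P' ∪ (M ×ˢ P').image (fun q => insert q.1 q.2)).card := Finset.card_le_card h2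
      _ ≤ P'.card + ((M ×ˢ P').image (fun q => insert q.1 q.2)).card := Finset.card_union_le _ _
      _ ≤ P'.card + (M ×ˢ P').card := by gcongr; exact Finset.card_image_le
      _ = P'.card * (M.card + 1) := by rw [Finset.card_product]; ring
      _ ≤ (M.card + 1) ^ k * (M.card + 1) := Nat.mul_le_mul_right _ h1
      _ = _ := by rw [pow_succ]

/-- Every member of rank at least `ρ` contains `ρ choose r` independent `r`-sets; so one of the
independent `r`-sets which are contained in a member is contained in the fraction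
`(ρ choose r) / t` of the members, where `t` is the number of these sets. -/
theorem popular' {ι V : Type*} [Fintype ι] [DecidableEq ι] [AddCommGroup V] [Module ℝ V]
    [FiniteDimensional ℝ V] (a : ι → V) (ρ r : ℕ) (Q : Finset (Finset ι))
    (h2 : ∀ A ∈ Q, ρ ≤ finrank ℝ (Submodule.span ℝ (a '' (A : Set ι))))
    (hQ : Q.Nonempty) (hr : r ≤ ρ) (T : Finset (Finset ι))
    (hT : ∀ I : Finset ι, I.card = r → LinearIndepOn ℝ a (I : Set ι) → (∃ A ∈ Q, I ⊆ A) → I ∈ T) :
    ∃ I : Finset ι, I.card = r ∧ LinearIndepOn ℝ a (I : Set ι) ∧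
      Q.card * ρ.choose r ≤ (Q.filter (fun A => I ⊆ A)).card * T.card := by
  classical
  -- the independent `r`-sets in a member
  have hB : ∀ A ∈ Q, ρ.choose r ≤ ((A.powersetCard r).filter
      (fun I : Finset ι => LinearIndepOn ℝ a (I : Set ι))).card := by
    intro A hA
    obtain ⟨B, hBA, -, hBs, hBl⟩ := exists_linearIndepOn_extension (K := ℝ) (v := a)
      (linearIndepOn_empty ℝ a) (Set.empty_subset (A : Set ι))
    set B' : Finset ι := A.filter (fun i => i ∈ B) with hB'
    have hBB' : (B' : Set ι) = B := by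
      ext i
      simp only [hB', Finset.coe_filter, Set.mem_ofPred_eq]
      exact ⟨fun h => h.2, fun h => ⟨hBA h, h⟩⟩
    have hBc : ρ ≤ B'.card := by
      have h3 : Submodule.span ℝ (a '' (A : Set ι)) ≤ Submodule.span ℝ (a '' B) :=
        Submodule.span_le.2 hBs
      have h4 : finrank ℝ (Submodule.span ℝ (a '' B)) ≤ B'.card := by
        have h : ((B'.image a : Finset V) : Set V) = a '' B := by
          rw [Finset.coe_image, hBB']
        rw [← h]
        exact (finrank_span_finset_le_card _).trans Finset.card_image_le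
      exact (h2 A hA).trans ((Submodule.finrank_mono h3).trans h4)
    calc ρ.choose r ≤ B'.card.choose r := Nat.choose_le_choose r hBc
      _ = (B'.powersetCard r).card := (Finset.card_powersetCard _ _).symm
      _ ≤ _ := by
        apply Finset.card_le_card
        intro I hI
        rw [Finset.mem_powersetCard] at hI
        rw [Finset.mem_filter, Finset.mem_powersetCard]
        refine ⟨⟨hI.1.trans (Finset.filter_subset _ _), hI.2⟩, ?_⟩
        refine hBl.mono ?_
        rw [← hBB']
        exact_mod_cast hI.1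
  set U : Finset (Finset ι) := T.filter
    (fun I : Finset ι => I.card = r ∧ LinearIndepOn ℝ a (I : Set ι)) with hU
  have hdc : ∑ I ∈ U, (Q.filter (fun A => I ⊆ A)).card = ∑ A ∈ Q, (U.filter (fun I => I ⊆ A)).card := by
    simp only [Finset.card_filter]
    exact Finset.sum_comm
  have h3 : Q.card * ρ.choose r ≤ ∑ I ∈ U, (Q.filter (fun A => I ⊆ A)).card := by
    rw [hdc, ← smul_eq_mul]
    refine Finset.card_nsmul_le_sum _ _ _ fun A hA => (hB A hA).trans (Finset.card_le_card ?_)
    intro I hI
    rw [Finset.mem_filter, Finset.mem_powersetCard] at hI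
    rw [Finset.mem_filter, hU, Finset.mem_filter]
    exact ⟨⟨hT I hI.1.2 hI.2 ⟨A, hA, hI.1.1⟩, hI.1.2, hI.2⟩, hI.1.1⟩
  have hpos : 0 < Q.card * ρ.choose r := Nat.mul_pos (Finset.card_pos.2 hQ) (Nat.choose_pos hr)
  have hUne : U.Nonempty := by
    rw [Finset.nonempty_iff_ne_empty]
    rintro h
    rw [h, Finset.sum_empty] at h3
    omega
  obtain ⟨I, hIU, hI⟩ : ∃ I ∈ U, Q.card * ρ.choose r ≤
      (Q.filter (fun A => I ⊆ A)).card * U.card := by
    by_contra hcon
    push Not at hcon
    have h10 : ∑ I ∈ U, (Q.filter (fun A => I ⊆ A)).card * U.card <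
        ∑ _I ∈ U, Q.card * ρ.choose r := Finset.sum_lt_sum_of_nonempty hUne hcon
    rw [← Finset.sum_mul, Finset.sum_const, smul_eq_mul, mul_comm U.card] at h10
    have h11 := lt_of_mul_lt_mul_right h10 (Nat.zero_le _)
    omega
  have h4 := (Finset.mem_filter.1 hIU).2
  refine ⟨I, h4.1, h4.2, hI.trans (Nat.mul_le_mul_left _ (Finset.card_le_card ?_))⟩
  exact Finset.filter_subset _ _

end Pool.Agent.N96.FF
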