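import Pool.Agent.R753.HS.C
import Pool.Agent.R753.HS.D

set_option autoImplicit false

/-!
# Numerical inequalities
-/

namespace Pool.Agent.N96.FF

open Pool.Agent.R753

lemma beta_le (e : ℕ) : HS.beta e ≤ 4 * ((e : ℝ) + 1) ^ 2 * 2 ^ e := by
  rcases Nat.lt_or_ge e 2 with h | h
  · have h1 := HS.beta_mono (by omega : e ≤ 1)
    have h2 : HS.beta 1 = 2 := by simp [HS.beta]
    have h3 : (1 : ℝ) ≤ 2 ^ e := one_le_pow₀ (by norm_num)
    have h4 : (0 : ℝ) ≤ e := Nat.cast_nonneg e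
    nlinarith [mul_nonneg h4 (by linarith : (0 : ℝ) ≤ 2 ^ e), sq_nonneg (e : ℝ),
      mul_nonneg (sq_nonneg (e : ℝ)) (by linarith : (0 : ℝ) ≤ 2 ^ e)]
  · refine (HS.beta_lt h le_rfl).le.trans ?_
    gcongr
    linarith

/-- the ratio of binomial coefficients -/
lemma choose_ratio {ρ k m : ℕ} (hm : k + m = ρ) (r : ℕ) (hr : r ≤ m) :
    (((ρ + k).choose r : ℕ) : ℝ) ≤ (ρ.choose r : ℕ) *
      (2 ^ r * Real.exp (-((r * m - r * (r - 1) / 2 : ℝ) / (2 * ρ)))) := by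
  induction r with
  | zero => simp
  | succ r ih =>
    have ih := ih (by omega)
    have hρ : (0 : ℝ) < ρ - r := by
      have : (r : ℝ) + 1 ≤ m := by exact_mod_cast hr
      have h2 : (m : ℝ) ≤ ρ := by exact_mod_cast (by omega : m ≤ ρ)
      linarith
    have hρ0 : (0 : ℝ) < ρ := by
      have : (0 : ℝ) ≤ r := Nat.cast_nonneg r
      linarith
    have hkm : (k : ℝ) + m = ρ := by exact_mod_cast hm
    have hr' : (r : ℝ) + 1 ≤ m := by exact_mod_cast hr
    have c1 : (((ρ + k).choose (r + 1) : ℕ) : ℝ) * (r + 1) =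
        ((ρ + k).choose r : ℕ) * (ρ + k - r) := by
      have := Nat.choose_succ_right_eq (ρ + k) r
      have h3 : (((ρ + k - r : ℕ)) : ℝ) = ρ + k - r := by
        rw [Nat.cast_sub (by omega)]; push_cast; ring
      rw [← h3]
      exact_mod_cast this
    have c2 : ((ρ.choose (r + 1) : ℕ) : ℝ) * (r + 1) = (ρ.choose r : ℕ) * (ρ - r) := by
      have := Nat.choose_succ_right_eq ρ r
      have h3 : (((ρ - r : ℕ)) : ℝ) = ρ - r := by
        rw [Nat.cast_sub (by omega)]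
      rw [← h3]
      exact_mod_cast this
    have key : (ρ : ℝ) + k - r ≤ 2 * (ρ - r) * Real.exp (-((m - r) / (2 * ρ))) := by
      have h4 : 1 - (m - r : ℝ) / (2 * (ρ - r)) ≤ Real.exp (-((m - r) / (2 * (ρ - r)))) := by
        have := Real.add_one_le_exp (-((m - r : ℝ) / (2 * (ρ - r))))
        linarith
      have h5 : Real.exp (-((m - r : ℝ) / (2 * (ρ - r)))) ≤ Real.exp (-((m - r) / (2 * ρ))) := by
        apply Real.exp_le_exp.2
        apply neg_le_neg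
        apply div_le_div_of_nonneg_left (by linarith) (by linarith)
        have : (0 : ℝ) ≤ r := Nat.cast_nonneg r
        linarith
      have h6 : (ρ : ℝ) + k - r = 2 * (ρ - r) * (1 - (m - r : ℝ) / (2 * (ρ - r))) := by
        field_simp
        linarith
      rw [h6]
      exact mul_le_mul_of_nonneg_left (h4.trans h5) (by linarith)
    have e1 : Real.exp (-((((r + 1 : ℕ) : ℝ) * m - ((r + 1 : ℕ) : ℝ) * (((r + 1 : ℕ) : ℝ) - 1) / 2)
        / (2 * ρ))) = Real.exp (-((r * m - r * (r - 1) / 2 : ℝ) / (2 * ρ))) *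
          Real.exp (-((m - r) / (2 * ρ))) := by
      rw [← Real.exp_add]
      congr 1
      push_cast
      field_simp
      ring
    rw [e1]
    have hr1 : (0 : ℝ) < r + 1 := by positivity
    rw [← mul_le_mul_iff_left₀ hr1, c1]
    calc (((ρ + k).choose r : ℕ) : ℝ) * (ρ + k - r)
        ≤ ((ρ.choose r : ℕ) * (2 ^ r * Real.exp (-((r * m - r * (r - 1) / 2 : ℝ) / (2 * ρ))))) *
          (2 * (ρ - r) * Real.exp (-((m - r) / (2 * ρ)))) := by
          have : (0 : ℝ) ≤ ρ + k - r := by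
            have : (0 : ℝ) ≤ k := Nat.cast_nonneg k
            linarith
          gcongr
      _ = ((ρ.choose r : ℕ) * (ρ - r)) * (2 ^ (r + 1) *
          (Real.exp (-((r * m - r * (r - 1) / 2 : ℝ) / (2 * ρ))) *
          Real.exp (-((m - r) / (2 * ρ))))) := by rw [pow_succ]; ring
      _ = _ := by rw [← c2]; ring

lemma choose_ratio' {ρ k m : ℕ} (hm : k + m = ρ) (hρ : 0 < ρ) :
    (((ρ + k).choose m : ℕ) : ℝ) / (ρ.choose m : ℕ) ≤
      2 ^ m * Real.exp (-((m : ℝ) ^ 2 / (4 * ρ))) := by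
  have h1 := choose_ratio hm m le_rfl
  have hc : (0 : ℝ) < (ρ.choose m : ℕ) := by exact_mod_cast Nat.choose_pos (by omega)
  have hρ' : (0 : ℝ) < ρ := by exact_mod_cast hρ
  rw [div_le_iff₀ hc]
  refine h1.trans ?_
  rw [mul_comm]
  apply mul_le_mul_of_nonneg_right _ hc.le
  apply mul_le_mul_of_nonneg_left _ (by positivity)
  apply Real.exp_le_exp.2
  apply neg_le_neg
  rw [div_le_div_iff₀ (by positivity) (by positivity)]
  have hm0 : (0 : ℝ) ≤ m := Nat.cast_nonneg m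
  nlinarith [mul_nonneg hm0 hρ'.le]

/-- the main term, closed form -/
lemma closed_form {d ρ k m : ℕ} (hm : k + m = ρ) (hρ : 0 < ρ) (hρd : ρ ≤ d) :
    (k * Real.log ((d + 1) * k + 1) * (((ρ + k).choose m : ℕ) / (ρ.choose m : ℕ) : ℝ) + 1) *
      HS.beta (d - m) ≤ 4 * ((d - m : ℕ) + 1 : ℝ) ^ 2 *
        (2 * k * Real.log (d + 1) * (2 ^ d * Real.exp (-((m : ℝ) ^ 2 / (4 * ρ)))) +
          2 ^ (d - m)) := by
  have h1 := choose_ratio' hm hρ
  have h2 := beta_le (d - m)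
  have hd0 : (0 : ℝ) ≤ d := Nat.cast_nonneg d
  have hk0 : (0 : ℝ) ≤ k := Nat.cast_nonneg k
  have hkd : (k : ℝ) ≤ d := by exact_mod_cast (by omega : k ≤ d)
  have h3 : Real.log ((d + 1) * k + 1) ≤ 2 * Real.log (d + 1) := by
    have : Real.log (((d : ℝ) + 1) * k + 1) ≤ Real.log (((d : ℝ) + 1) ^ 2) := by
      apply Real.log_le_log (by positivity)
      nlinarith
    rwa [Real.log_pow, Nat.cast_ofNat] at this
  have h4 : 0 ≤ Real.log ((d + 1) * k + 1) := by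
    apply Real.log_nonneg
    have : (0 : ℝ) ≤ (d + 1) * k := by positivity
    linarith
  have hlog1 : 0 ≤ Real.log ((d : ℝ) + 1) := Real.log_nonneg (by linarith)
  have h5 : (k * Real.log ((d + 1) * k + 1) * (((ρ + k).choose m : ℕ) / (ρ.choose m : ℕ) : ℝ) + 1) ≤
      k * (2 * Real.log (d + 1)) * (2 ^ m * Real.exp (-((m : ℝ) ^ 2 / (4 * ρ)))) + 1 := by
    have h51 : (k : ℝ) * Real.log ((d + 1) * k + 1) ≤ k * (2 * Real.log (d + 1)) :=
      mul_le_mul_of_nonneg_left h3 hk0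
    have h52 : 0 ≤ (k : ℝ) * (2 * Real.log (d + 1)) := by positivity
    have h53 := mul_le_mul h51 h1 (by positivity) h52
    linarith
  have h6 : (0 : ℝ) ≤ k * (2 * Real.log (d + 1)) *
      (2 ^ m * Real.exp (-((m : ℝ) ^ 2 / (4 * ρ)))) + 1 := by
    have : 0 ≤ Real.log ((d : ℝ) + 1) := Real.log_nonneg (by linarith)
    positivity
  have h7 : (2 : ℝ) ^ d = 2 ^ (d - m) * 2 ^ m := by
    rw [← pow_add]; congr 1; omega
  have hb : 0 ≤ HS.beta (d - m) := by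
    have := HS.beta_mono (Nat.zero_le (d - m))
    have h0 : HS.beta 0 = 1 := by simp [HS.beta]
    linarith
  calc _ ≤ (k * (2 * Real.log (d + 1)) * (2 ^ m * Real.exp (-((m : ℝ) ^ 2 / (4 * ρ)))) + 1) *
        HS.beta (d - m) := mul_le_mul_of_nonneg_right h5 hb
    _ ≤ (k * (2 * Real.log (d + 1)) * (2 ^ m * Real.exp (-((m : ℝ) ^ 2 / (4 * ρ)))) + 1) *
        (4 * (((d - m : ℕ) : ℝ) + 1) ^ 2 * 2 ^ (d - m)) := mul_le_mul_of_nonneg_left h2 h6
    _ = _ := by rw [h7]; ring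

/-- a simpler closed form -/
lemma closed_form' {d ρ k m : ℕ} (hm : k + m = ρ) (hρ : 0 < ρ) (hρd : ρ ≤ d) :
    (k * Real.log ((d + 1) * k + 1) * (((ρ + k).choose m : ℕ) / (ρ.choose m : ℕ) : ℝ) + 1) *
      HS.beta (d - m) ≤ 8 * ((d : ℝ) + 1) ^ 4 * (2 ^ d * Real.exp (-((m : ℝ) ^ 2 / (4 * ρ)))) := by
  refine (closed_form hm hρ hρd).trans ?_
  have hd0 : (0 : ℝ) ≤ d := Nat.cast_nonneg d
  have hk0 : (0 : ℝ) ≤ k := Nat.cast_nonneg k
  have hkd : (k : ℝ) ≤ d := by exact_mod_cast (by omega : k ≤ d)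
  have hlog : Real.log ((d : ℝ) + 1) ≤ d := by
    have := Real.log_le_sub_one_of_pos (by positivity : (0 : ℝ) < (d : ℝ) + 1)
    linarith
  have hlog0 : 0 ≤ Real.log ((d : ℝ) + 1) := Real.log_nonneg (by linarith)
  have hdm : ((d - m : ℕ) : ℝ) + 1 ≤ d + 1 := by
    have : ((d - m : ℕ) : ℝ) ≤ d := by exact_mod_cast (by omega : d - m ≤ d)
    linarith
  have hρ' : (0 : ℝ) < ρ := by exact_mod_cast hρ
  have hmρ : (m : ℝ) ≤ ρ := by exact_mod_cast (by omega : m ≤ ρ)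
  have hm0 : (0 : ℝ) ≤ m := Nat.cast_nonneg m
  -- `2^(-m) ≤ exp (-m²/(4ρ))`
  have h1 : (2 : ℝ) ^ (d - m) ≤ 2 ^ d * Real.exp (-((m : ℝ) ^ 2 / (4 * ρ))) := by
    have h7 : (2 : ℝ) ^ d = 2 ^ (d - m) * 2 ^ m := by
      rw [← pow_add]; congr 1; omega
    rw [h7, mul_assoc]
    have h8 : (1 : ℝ) ≤ 2 ^ m * Real.exp (-((m : ℝ) ^ 2 / (4 * ρ))) := by
      have h9 : (2 : ℝ) ^ m = Real.exp (m * Real.log 2) := by
        rw [mul_comm, Real.exp_mul, Real.exp_log (by norm_num), Real.rpow_natCast]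
      rw [h9, ← Real.exp_add]
      apply Real.one_le_exp
      have h10 : (m : ℝ) ^ 2 / (4 * ρ) ≤ m / 4 := by
        rw [div_le_div_iff₀ (by positivity) (by norm_num)]
        nlinarith
      have h11 := Real.log_two_gt_d9
      nlinarith
    calc (2 : ℝ) ^ (d - m) = 2 ^ (d - m) * 1 := by ring
      _ ≤ _ := by gcongr
  set X : ℝ := 2 ^ d * Real.exp (-((m : ℝ) ^ 2 / (4 * ρ))) with hX
  have hX0 : 0 ≤ X := by positivity
  have h12 : 2 * k * Real.log (d + 1) * X + 2 ^ (d - m) ≤ 2 * ((d : ℝ) + 1) ^ 2 * X := by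
    have h13 : 2 * (k : ℝ) * Real.log (d + 1) ≤ 2 * d * d := by
      have := mul_le_mul hkd hlog hlog0 hd0
      linarith
    have h14 : 2 * (k : ℝ) * Real.log (d + 1) * X ≤ 2 * d * d * X :=
      mul_le_mul_of_nonneg_right h13 hX0
    nlinarith [mul_nonneg hd0 hX0]
  calc 4 * (((d - m : ℕ) : ℝ) + 1) ^ 2 * (2 * k * Real.log (d + 1) * X + 2 ^ (d - m))
      ≤ 4 * ((d : ℝ) + 1) ^ 2 * (2 * ((d : ℝ) + 1) ^ 2 * X) := by
        apply mul_le_mul _ h12 _ (by positivity)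
        · gcongr
        · positivity
    _ = _ := by ring

/-- below half of `2^d` -/
lemma below_half {d ρ k : ℕ} (hρ : 0 < ρ) (hρd : ρ ≤ d) (hd : 2 ≤ d)
    (h : (k : ℝ) + 4 * Real.sqrt (ρ * Real.log d) ≤ ρ) :
    k ≤ ρ ∧ (k * Real.log ((d + 1) * k + 1) *
      (((ρ + k).choose (ρ - k) : ℕ) / (ρ.choose (ρ - k) : ℕ) : ℝ) + 1) *
      HS.beta (d - (ρ - k)) ≤ 2 ^ (d - 1) := by
  have hs0 : 0 ≤ Real.sqrt (ρ * Real.log d) := Real.sqrt_nonneg _
  have hkρ' : (k : ℝ) ≤ ρ := by linarith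
  have hkρ : k ≤ ρ := by exact_mod_cast hkρ'
  refine ⟨hkρ, ?_⟩
  obtain ⟨m, hm⟩ : ∃ m, k + m = ρ := ⟨ρ - k, by omega⟩
  have hρk : ρ - k = m := by omega
  rw [hρk]
  have hmR : (k : ℝ) + m = ρ := by exact_mod_cast hm
  have hd2 : (2 : ℝ) ≤ d := by exact_mod_cast hd
  have hρ' : (1 : ℝ) ≤ ρ := by exact_mod_cast hρ
  have hρd' : (ρ : ℝ) ≤ d := by exact_mod_cast hρd
  have hlog2 : 0.69 ≤ Real.log d := by
    have := Real.log_two_gt_d9
    have h2 : Real.log 2 ≤ Real.log d := Real.log_le_log (by norm_num) hd2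
    linarith
  set lg := Real.log (d : ℝ) with hlg
  have hm1 : 4 * Real.sqrt (ρ * lg) ≤ m := by linarith
  have hsq : Real.sqrt (ρ * lg) ^ 2 = ρ * lg := Real.sq_sqrt (by positivity)
  have hm2 : 16 * (ρ * lg) ≤ (m : ℝ) ^ 2 := by nlinarith
  have hk0 : (0 : ℝ) ≤ k := Nat.cast_nonneg k
  have hmρ : (m : ℝ) ≤ ρ := by linarith
  have hm0 : (0 : ℝ) ≤ m := Nat.cast_nonneg m
  have hmpos : (0 : ℝ) < m := by
    rcases hm0.lt_or_eq with h1 | h1
    · exact h1
    · rw [← h1] at hm2; nlinarith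
  have hm3 : 16 * lg ≤ m := by
    have h1 : 16 * (ρ * lg) ≤ ρ * m := by nlinarith
    have h2 : ρ * (16 * lg) ≤ ρ * m := by linarith
    exact le_of_mul_le_mul_left h2 (by linarith)
  have hm11 : (11 : ℝ) < m := by linarith
  have hm12 : 12 ≤ m := by
    have : 11 < m := by exact_mod_cast hm11
    omega
  have hm12' : (12 : ℝ) ≤ m := by exact_mod_cast hm12
  refine (closed_form hm hρ hρd).trans ?_
  -- parameters
  set D : ℝ := (d : ℝ) with hD
  have hD12 : 12 ≤ D := by linarith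
  have hkD : (k : ℝ) ≤ D - 12 := by linarith
  have hdm : ((d - m : ℕ) : ℝ) = D - m := by
    rw [Nat.cast_sub (by omega)]
  have he : ((d - m : ℕ) : ℝ) + 1 ≤ D - 11 := by rw [hdm]; linarith
  have he0 : (0 : ℝ) ≤ ((d - m : ℕ) : ℝ) + 1 := by positivity
  have hexp : Real.exp (-((m : ℝ) ^ 2 / (4 * ρ))) ≤ 1 / D ^ 4 := by
    have h1 : 4 * lg ≤ (m : ℝ) ^ 2 / (4 * ρ) := by
      rw [le_div_iff₀ (by linarith)]
      nlinarith
    have h2 : 1 / D ^ 4 = Real.exp (-(4 * lg)) := by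
      rw [Real.exp_neg, show (4 : ℝ) * lg = lg * (4 : ℕ) by push_cast; ring, Real.exp_mul, hlg,
        Real.exp_log (by linarith), Real.rpow_natCast, one_div]
    rw [h2]
    exact Real.exp_le_exp.2 (by linarith)
  have hlogD1 : Real.log (D + 1) ≤ D / 16 + 1 / D := by
    have h1 : Real.log (D + 1) = lg + Real.log (1 + 1 / D) := by
      rw [hlg, ← Real.log_mul (by linarith) (by positivity)]
      congr 1
      field_simp
    have h2 : Real.log (1 + 1 / D) ≤ 1 / D := by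
      have := Real.log_le_sub_one_of_pos (by positivity : (0 : ℝ) < 1 + 1 / D)
      linarith
    rw [h1]
    linarith
  have hlog0 : 0 ≤ Real.log (D + 1) := Real.log_nonneg (by linarith)
  have h2m : D ^ 4 ≤ (2 : ℝ) ^ m := by
    have h9 : (2 : ℝ) ^ m = Real.exp (m * Real.log 2) := by
      rw [mul_comm, Real.exp_mul, Real.exp_log (by norm_num), Real.rpow_natCast]
    have h2 : D ^ 4 = Real.exp (4 * lg) := by
      rw [show (4 : ℝ) * lg = lg * (4 : ℕ) by push_cast; ring, Real.exp_mul, hlg,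
        Real.exp_log (by linarith), Real.rpow_natCast]
    rw [h9, h2]
    apply Real.exp_le_exp.2
    have h11 := Real.log_two_gt_d9
    nlinarith
  have h2d : (2 : ℝ) ^ d = 2 ^ (d - m) * 2 ^ m := by
    rw [← pow_add]; congr 1; omega
  have h2d' : (2 : ℝ) ^ (d - m) ≤ 2 ^ d / D ^ 4 := by
    rw [le_div_iff₀ (by positivity), h2d]
    gcongr
  have h2d1 : (2 : ℝ) ^ d = 2 * 2 ^ (d - 1) := by
    rw [← pow_succ']; congr 1; omega
  have hP : (0 : ℝ) < 2 ^ d := by positivity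
  -- the two terms
  have t1 : 2 * (k : ℝ) * Real.log (D + 1) * (2 ^ d * Real.exp (-((m : ℝ) ^ 2 / (4 * ρ)))) +
      2 ^ (d - m) ≤ 2 ^ d / D ^ 4 * (2 * (D - 12) * (D / 16 + 1 / D) + 1) := by
    have h1 : 2 * (k : ℝ) * Real.log (D + 1) ≤ 2 * (D - 12) * (D / 16 + 1 / D) := by
      apply mul_le_mul (by linarith) hlogD1 hlog0 (by linarith)
    have h2 : 2 * (k : ℝ) * Real.log (D + 1) * (2 ^ d * Real.exp (-((m : ℝ) ^ 2 / (4 * ρ)))) ≤
        2 * (D - 12) * (D / 16 + 1 / D) * (2 ^ d * (1 / D ^ 4)) := by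
      apply mul_le_mul h1 _ (by positivity) _
      · gcongr
      · have : 0 ≤ D - 12 := by linarith
        positivity
    calc _ ≤ 2 * (D - 12) * (D / 16 + 1 / D) * (2 ^ d * (1 / D ^ 4)) + 2 ^ d / D ^ 4 := by
          linarith
      _ = _ := by ring
  have t2 : 4 * (((d - m : ℕ) : ℝ) + 1) ^ 2 ≤ 4 * (D - 11) ^ 2 := by
    gcongr
  have hD11 : 0 ≤ D - 11 := by linarith
  have hD12' : 0 ≤ D - 12 := by linarith
  calc 4 * (((d - m : ℕ) : ℝ) + 1) ^ 2 * (2 * (k : ℝ) * Real.log (D + 1) *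
        (2 ^ d * Real.exp (-((m : ℝ) ^ 2 / (4 * ρ)))) + 2 ^ (d - m))
      ≤ 4 * (D - 11) ^ 2 * (2 ^ d / D ^ 4 * (2 * (D - 12) * (D / 16 + 1 / D) + 1)) := by
        apply mul_le_mul t2 t1 _ (by positivity)
        positivity
    _ = 2 ^ d * (4 * (D - 11) ^ 2 * (2 * (D - 12) * (D / 16 + 1 / D) + 1) / D ^ 4) := by
        ring
    _ ≤ 2 ^ d * (1 / 2) := by
        apply mul_le_mul_of_nonneg_left _ hP.le
        rw [div_le_div_iff₀ (by positivity) (by norm_num)]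
        have e1 : 4 * (D - 11) ^ 2 * (2 * (D - 12) * (D / 16 + 1 / D) + 1) * 2 =
            ((D - 11) ^ 2 * ((D - 12) * (D ^ 2 + 16) + 8 * D)) / D := by
          field_simp
          ring
        rw [e1, div_le_iff₀ (by linarith), one_mul]
        -- (D-11)^2 ((D-12)(D^2+16) + 8D) ≤ D^5
        obtain ⟨y, hy⟩ : ∃ y, y = D - 12 := ⟨_, rfl⟩
        have hy0 : 0 ≤ y := by linarith
        have hDy : D = y + 12 := by linarith
        rw [hDy]
        have h5 : (y + 12) ^ 4 * (y + 12) - (y + 12 - 11) ^ 2 *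
            ((y + 12 - 12) * ((y + 12) ^ 2 + 16) + 8 * (y + 12)) =
            34 * y ^ 4 + 1223 * y ^ 3 + 16824 * y ^ 2 + 103320 * y + 248736 := by ring
        nlinarith [pow_nonneg hy0 2, pow_nonneg hy0 3, pow_nonneg hy0 4]
    _ = 2 ^ (d - 1) := by rw [h2d1]; ring

end Pool.Agent.N96.FF
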