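import Pool.Agent.N96.FF.Main
import Pool.Agent.N96.FF.Num

set_option autoImplicit false

/-!
# Consequences: half of `2^d`, polyhedra cut by cylinders, sparse extreme points
-/

open scoped RealInnerProductSpace

namespace Pool.Agent.N96.FF

open Module Pool.Agent.R753

/-- At most `2^(d-1)` translates, besides those for the exceptional flats. -/
theorem half {d n k ρ j : ℕ} (hd : 2 ≤ d) (hρ : 0 < ρ) (a : Fin n → EuclideanSpace ℝ (Fin d))
    (b : Fin n → ℝ) {K : Set (EuclideanSpace ℝ (Fin d))} (hK : Convex ℝ K) (kK : IsCompact K)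
    (iK : (interior K).Nonempty) (e : Fin j → ℕ)
    (g : ∀ i, EuclideanSpace ℝ (Fin (e i)) →ᵃ[ℝ] EuclideanSpace ℝ (Fin d))
    (hY : ∀ v ∈ K.extremePoints ℝ, (∀ i, v ∉ Set.range (g i)) →
      {i | ⟪a i, v⟫ ≠ b i}.ncard ≤ k ∧
      ρ ≤ finrank ℝ (Submodule.span ℝ (a '' {i | ⟪a i, v⟫ = b i})))
    (h : (k : ℝ) + 4 * Real.sqrt (ρ * Real.log d) ≤ ρ) :
    ∃ S : Finset (EuclideanSpace ℝ (Fin d)), (S.card : ℝ) ≤ 2 ^ (d - 1) + ∑ i, HS.beta (e i) ∧
      K ⊆ ⋃ v ∈ S, (fun x => v + x) '' interior K := by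
  by_cases hex : ∃ v ∈ K.extremePoints ℝ, ∀ i, v ∉ Set.range (g i)
  swap
  · obtain ⟨S, hS, hc⟩ := main00 hK kK iK e g hex
    refine ⟨S, hS.trans ?_, hc⟩
    have : (0 : ℝ) ≤ 2 ^ (d - 1) := by positivity
    linarith
  · obtain ⟨v, hv, hvX⟩ := hex
    have hρd : ρ ≤ d := by
      have h1 := (hY v hv hvX).2
      have h2 := Submodule.finrank_le (Submodule.span ℝ (a '' {i | ⟪a i, v⟫ = b i}))
      rw [finrank_euclideanSpace_fin] at h2
      exact h1.trans h2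
    obtain ⟨hkρ, hh⟩ := below_half hρ hρd hd h
    obtain ⟨S, hS, hc⟩ := main1 (Nat.sub_le ρ k) a b hK kK iK e g hY
    exact ⟨S, by linarith, hc⟩

/-- Closed form. -/
theorem closed {d n k ρ j : ℕ} (hρ : 0 < ρ) (hkρ : k ≤ ρ) (a : Fin n → EuclideanSpace ℝ (Fin d))
    (b : Fin n → ℝ) {K : Set (EuclideanSpace ℝ (Fin d))} (hK : Convex ℝ K) (kK : IsCompact K)
    (iK : (interior K).Nonempty) (e : Fin j → ℕ)
    (g : ∀ i, EuclideanSpace ℝ (Fin (e i)) →ᵃ[ℝ] EuclideanSpace ℝ (Fin d))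
    (hY : ∀ v ∈ K.extremePoints ℝ, (∀ i, v ∉ Set.range (g i)) →
      {i | ⟪a i, v⟫ ≠ b i}.ncard ≤ k ∧
      ρ ≤ finrank ℝ (Submodule.span ℝ (a '' {i | ⟪a i, v⟫ = b i}))) :
    ∃ S : Finset (EuclideanSpace ℝ (Fin d)), (S.card : ℝ) ≤
      8 * ((d : ℝ) + 1) ^ 4 * (2 ^ d * Real.exp (-(((ρ : ℝ) - k) ^ 2 / (4 * ρ)))) +
        ∑ i, HS.beta (e i) ∧
      K ⊆ ⋃ v ∈ S, (fun x => v + x) '' interior K := by
  by_cases hex : ∃ v ∈ K.extremePoints ℝ, ∀ i, v ∉ Set.range (g i)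
  swap
  · obtain ⟨S, hS, hc⟩ := main00 hK kK iK e g hex
    refine ⟨S, hS.trans ?_, hc⟩
    have : (0 : ℝ) ≤ 8 * ((d : ℝ) + 1) ^ 4 *
      (2 ^ d * Real.exp (-(((ρ : ℝ) - k) ^ 2 / (4 * ρ)))) := by positivity
    linarith
  · obtain ⟨v, hv, hvX⟩ := hex
    have hρd : ρ ≤ d := by
      have h1 := (hY v hv hvX).2
      have h2 := Submodule.finrank_le (Submodule.span ℝ (a '' {i | ⟪a i, v⟫ = b i}))
      rw [finrank_euclideanSpace_fin] at h2
      exact h1.trans h2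
    obtain ⟨m, hm⟩ : ∃ m, k + m = ρ := ⟨ρ - k, by omega⟩
    have hmR : (ρ : ℝ) - k = m := by
      have : (k : ℝ) + m = ρ := by exact_mod_cast hm
      linarith
    have hh := closed_form' hm hρ hρd
    obtain ⟨S, hS, hc⟩ := main1 (by omega : m ≤ ρ) a b hK kK iK e g hY
    rw [hmR]
    exact ⟨S, by linarith, hc⟩

/-- Version with the number `n` of hyperplanes. -/
theorem half_n {d n ρ j : ℕ} (hd : 2 ≤ d) (hρ : 0 < ρ) (a : Fin n → EuclideanSpace ℝ (Fin d))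
    (b : Fin n → ℝ) {K : Set (EuclideanSpace ℝ (Fin d))} (hK : Convex ℝ K) (kK : IsCompact K)
    (iK : (interior K).Nonempty) (e : Fin j → ℕ)
    (g : ∀ i, EuclideanSpace ℝ (Fin (e i)) →ᵃ[ℝ] EuclideanSpace ℝ (Fin d))
    (hY : ∀ v ∈ K.extremePoints ℝ, (∀ i, v ∉ Set.range (g i)) →
      ρ ≤ finrank ℝ (Submodule.span ℝ (a '' {i | ⟪a i, v⟫ = b i})))
    (h : (n : ℝ) + 4 * Real.sqrt (ρ * Real.log d) ≤ 2 * ρ) :
    ∃ S : Finset (EuclideanSpace ℝ (Fin d)), (S.card : ℝ) ≤ 2 ^ (d - 1) + ∑ i, HS.beta (e i) ∧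
      K ⊆ ⋃ v ∈ S, (fun x => v + x) '' interior K := by
  by_cases hex : ∃ v ∈ K.extremePoints ℝ, ∀ i, v ∉ Set.range (g i)
  swap
  · obtain ⟨S, hS, hc⟩ := main00 hK kK iK e g hex
    refine ⟨S, hS.trans ?_, hc⟩
    have : (0 : ℝ) ≤ 2 ^ (d - 1) := by positivity
    linarith
  · obtain ⟨v, hv, hvX⟩ := hex
    have h1 := hY v hv hvX
    have h2 := rank_add_miss a b v
    obtain ⟨k, hk⟩ : ∃ k, n = ρ + k := ⟨n - ρ, by omega⟩
    have hkR : (n : ℝ) = ρ + k := by exact_mod_cast hk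
    refine half (k := k) hd hρ a b hK kK iK e g ?_ (by linarith)
    intro u hu huX
    have h3 := hY u hu huX
    have h4 := rank_add_miss a b u
    exact ⟨by omega, h3⟩

/-- Rank of the first family at extreme points. -/
theorem rank_two {d n N p ρ : ℕ} (a : Fin n → EuclideanSpace ℝ (Fin d)) (b : Fin n → ℝ)
    (a' : Fin N → EuclideanSpace ℝ (Fin d)) (b' : Fin N → ℝ)
    (C : Set (EuclideanSpace ℝ (Fin d))) (hC : Convex ℝ C) {K : Set (EuclideanSpace ℝ (Fin d))}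
    (hKC : K = {x | x ∈ C ∧ (∀ i, ⟪a i, x⟫ ≤ b i) ∧ ∀ j, ⟪a' j, x⟫ ≤ b' j})
    (v : EuclideanSpace ℝ (Fin d)) (hv : v ∈ K.extremePoints ℝ)
    (W : Submodule ℝ (EuclideanSpace ℝ (Fin d))) (hW : ρ ≤ finrank ℝ W)
    (hCW : ∀ w ∈ W, ∃ ε : ℝ, 0 < ε ∧ v + ε • w ∈ C ∧ v - ε • w ∈ C)
    (hp : finrank ℝ (Submodule.span ℝ (a' '' {j | ⟪a' j, v⟫ = b' j})) ≤ p) :
    ρ - p ≤ finrank ℝ (Submodule.span ℝ (a '' {i | ⟪a i, v⟫ = b i})) := by
  have h1 : finrank ℝ W ≤ finrank ℝ (Submodule.span ℝ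
      ((Fin.append a a') '' {i | ⟪(Fin.append a a') i, v⟫ = (Fin.append b b') i})) := by
    refine rank_extreme (Fin.append a a') (Fin.append b b') C hC v W hCW ?_
    have h2 : K = {x | x ∈ C ∧ ∀ i, ⟪(Fin.append a a') i, x⟫ ≤ (Fin.append b b') i} := by
      rw [hKC]
      ext x
      constructor
      · rintro ⟨hx, h3, h4⟩
        refine ⟨hx, fun i => ?_⟩
        refine Fin.addCases (fun i => ?_) (fun i => ?_) i
        · rw [Fin.append_left, Fin.append_left]; exact h3 i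
        · rw [Fin.append_right, Fin.append_right]; exact h4 i
      · rintro ⟨hx, h3⟩
        refine ⟨hx, fun i => ?_, fun i => ?_⟩
        · have := h3 (Fin.castAdd N i)
          rwa [Fin.append_left, Fin.append_left] at this
        · have := h3 (Fin.natAdd n i)
          rwa [Fin.append_right, Fin.append_right] at this
    rw [← h2]
    exact hv
  have h4 : Submodule.span ℝ
      ((Fin.append a a') '' {i | ⟪(Fin.append a a') i, v⟫ = (Fin.append b b') i}) ≤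
      Submodule.span ℝ (a '' {i | ⟪a i, v⟫ = b i}) ⊔
        Submodule.span ℝ (a' '' {j | ⟪a' j, v⟫ = b' j}) := by
    rw [Submodule.span_le]
    rintro _ ⟨i, hi, rfl⟩
    revert hi
    refine Fin.addCases (fun i => ?_) (fun i => ?_) i
    · intro hi
      have hi' : ⟪a i, v⟫ = b i := by
        have : ⟪(Fin.append a a') (Fin.castAdd N i), v⟫ = (Fin.append b b') (Fin.castAdd N i) := hi
        rwa [Fin.append_left, Fin.append_left] at this
      rw [Fin.append_left]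
      exact Submodule.mem_sup_left (Submodule.subset_span (Set.mem_image_of_mem a hi'))
    · intro hi
      have hi' : ⟪a' i, v⟫ = b' i := by
        have : ⟪(Fin.append a a') (Fin.natAdd n i), v⟫ = (Fin.append b b') (Fin.natAdd n i) := hi
        rwa [Fin.append_right, Fin.append_right] at this
      rw [Fin.append_right]
      exact Submodule.mem_sup_right (Submodule.subset_span (Set.mem_image_of_mem a' hi'))
  have h6 := Submodule.finrank_mono h4
  have h7 := Submodule.finrank_add_le_finrank_add_finrank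
    (Submodule.span ℝ (a '' {i | ⟪a i, v⟫ = b i}))
    (Submodule.span ℝ (a' '' {j | ⟪a' j, v⟫ = b' j}))
  omega

/-- **Intersections.** -/
theorem inter {d n N p ρ j : ℕ} (hd : 2 ≤ d) (a : Fin n → EuclideanSpace ℝ (Fin d))
    (b : Fin n → ℝ) (a' : Fin N → EuclideanSpace ℝ (Fin d)) (b' : Fin N → ℝ)
    (C : Set (EuclideanSpace ℝ (Fin d))) (hC : Convex ℝ C) {K : Set (EuclideanSpace ℝ (Fin d))}
    (hKC : K = {x | x ∈ C ∧ (∀ i, ⟪a i, x⟫ ≤ b i) ∧ ∀ j, ⟪a' j, x⟫ ≤ b' j})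
    (hK : Convex ℝ K) (kK : IsCompact K) (iK : (interior K).Nonempty) (e : Fin j → ℕ)
    (g : ∀ i, EuclideanSpace ℝ (Fin (e i)) →ᵃ[ℝ] EuclideanSpace ℝ (Fin d))
    (hY : ∀ v ∈ K.extremePoints ℝ, (∀ i, v ∉ Set.range (g i)) →
      (∃ W : Submodule ℝ (EuclideanSpace ℝ (Fin d)), ρ ≤ finrank ℝ W ∧
        ∀ w ∈ W, ∃ ε : ℝ, 0 < ε ∧ v + ε • w ∈ C ∧ v - ε • w ∈ C) ∧
      finrank ℝ (Submodule.span ℝ (a' '' {j | ⟪a' j, v⟫ = b' j})) ≤ p)
    (hpρ : p < ρ)
    (h : (n : ℝ) + 4 * Real.sqrt (((ρ : ℝ) - p) * Real.log d) ≤ 2 * ((ρ : ℝ) - p)) :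
    ∃ S : Finset (EuclideanSpace ℝ (Fin d)), (S.card : ℝ) ≤ 2 ^ (d - 1) + ∑ i, HS.beta (e i) ∧
      K ⊆ ⋃ v ∈ S, (fun x => v + x) '' interior K := by
  have hc : ((ρ - p : ℕ) : ℝ) = (ρ : ℝ) - p := by rw [Nat.cast_sub hpρ.le]
  refine half_n (ρ := ρ - p) hd (by omega) a b hK kK iK e g ?_ (by rw [hc]; exact h)
  intro v hv hvX
  obtain ⟨⟨W, hW, hCW⟩, hp⟩ := hY v hv hvX
  exact rank_two a b a' b' C hC hKC v hv W hW hCW hp

/-- Polyhedra: the normals of the hyperplanes through an extreme point span the space. -/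
theorem rank_poly {d n : ℕ} (a : Fin n → EuclideanSpace ℝ (Fin d)) (b : Fin n → ℝ)
    (v : EuclideanSpace ℝ (Fin d))
    (hv : v ∈ Set.extremePoints ℝ {x : EuclideanSpace ℝ (Fin d) | ∀ i, ⟪a i, x⟫ ≤ b i}) :
    d ≤ finrank ℝ (Submodule.span ℝ (a '' {i | ⟪a i, v⟫ = b i})) := by
  have h1 := rank_extreme a b Set.univ convex_univ v ⊤
    (fun w _ => ⟨1, one_pos, trivial, trivial⟩) (by
      have : {x : EuclideanSpace ℝ (Fin d) | x ∈ Set.univ ∧ ∀ i, ⟪a i, x⟫ ≤ b i} =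
          {x : EuclideanSpace ℝ (Fin d) | ∀ i, ⟪a i, x⟫ ≤ b i} := by
        ext x; simp
      rw [this]; exact hv)
  rwa [finrank_top, finrank_euclideanSpace_fin] at h1

/-- Sparse extreme points. -/
theorem sparse {d s j : ℕ} (hd : 2 ≤ d) (B : Basis (Fin d) ℝ (EuclideanSpace ℝ (Fin d)))
    {K : Set (EuclideanSpace ℝ (Fin d))} (hK : Convex ℝ K) (kK : IsCompact K)
    (iK : (interior K).Nonempty) (e : Fin j → ℕ)
    (g : ∀ i, EuclideanSpace ℝ (Fin (e i)) →ᵃ[ℝ] EuclideanSpace ℝ (Fin d))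
    (hY : ∀ v ∈ K.extremePoints ℝ, (∀ i, v ∉ Set.range (g i)) →
      {i | B.repr v i ≠ 0}.ncard ≤ s)
    (h : 2 * (s : ℝ) + 4 * Real.sqrt (d * Real.log d) ≤ d) :
    ∃ S : Finset (EuclideanSpace ℝ (Fin d)), (S.card : ℝ) ≤ 2 ^ (d - 1) + ∑ i, HS.beta (e i) ∧
      K ⊆ ⋃ v ∈ S, (fun x => v + x) '' interior K := by
  classical
  -- the coordinate functionals as vectors
  let ψ := (InnerProductSpace.toDual ℝ (EuclideanSpace ℝ (Fin d)))
  let a : Fin d → EuclideanSpace ℝ (Fin d) := fun i =>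
    ψ.symm (LinearMap.toContinuousLinearMap (B.coord i))
  have ha : ∀ i v, ⟪a i, v⟫ = B.repr v i := by
    intro i v
    show ⟪ψ.symm (LinearMap.toContinuousLinearMap (B.coord i)), v⟫ = _
    rw [InnerProductSpace.toDual_symm_apply]
    rfl
  have hli : LinearIndependent ℝ a := by
    rw [Fintype.linearIndependent_iff]
    intro c hc i
    have h1 : ⟪∑ i, c i • a i, B i⟫ = 0 := by rw [hc, inner_zero_left]
    rw [sum_inner] at h1
    simp only [inner_smul_left, ha, B.repr_self, conj_trivial] at h1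
    rw [Finset.sum_eq_single i] at h1
    · simpa using h1
    · intro j _ hj
      rw [Finsupp.single_apply, if_neg (Ne.symm hj), mul_zero]
    · intro h; exact absurd (Finset.mem_univ _) h
  have hd0 : (1 : ℝ) ≤ d := by exact_mod_cast (by omega : 1 ≤ d)
  have hlog : 0 ≤ Real.log d := Real.log_nonneg hd0
  have hs0 : (0 : ℝ) ≤ s := Nat.cast_nonneg s
  have hsq0 : 0 < Real.sqrt (d * Real.log d) := by
    apply Real.sqrt_pos.2
    apply mul_pos (by linarith)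
    apply Real.log_pos
    exact_mod_cast (by omega : 1 < d)
  have hsd : s < d := by
    have : (s : ℝ) < d := by linarith
    exact_mod_cast this
  have hρ : ((d - s : ℕ) : ℝ) = (d : ℝ) - s := by rw [Nat.cast_sub hsd.le]
  refine half (k := s) (ρ := d - s) hd (by omega) a (fun _ => 0) hK kK iK e g ?_ ?_
  · intro v hv hvX
    have h1 := hY v hv hvX
    have h2 : {i | ⟪a i, v⟫ ≠ (0 : ℝ)} = {i | B.repr v i ≠ 0} := by ext i; simp [ha]
    rw [h2]
    refine ⟨h1, ?_⟩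
    set A : Finset (Fin d) := Finset.univ.filter (fun i => ⟪a i, v⟫ = 0) with hA
    have h3 : {i | ⟪a i, v⟫ = (0 : ℝ)} = (A : Set (Fin d)) := by ext i; simp [hA]
    have h4 : {i | B.repr v i ≠ 0} = ((Aᶜ : Finset (Fin d)) : Set (Fin d)) := by
      rw [← h2]; ext i; simp [hA]
    rw [h4, Set.ncard_coe_finset] at h1
    rw [h3]
    have h5 : finrank ℝ (Submodule.span ℝ (a '' (A : Set (Fin d)))) = A.card := by
      have h6 : a '' (A : Set (Fin d)) = Set.range (fun i : (A : Set (Fin d)) => a i) := by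
        ext x; simp
      have h9 : LinearIndependent ℝ (fun i : (A : Set (Fin d)) => a i) :=
        hli.comp _ Subtype.val_injective
      rw [h6, finrank_span_eq_card h9]
      simp
    have h7 := Finset.card_add_card_compl A
    rw [Fintype.card_fin] at h7
    omega
  · rw [hρ]
    have h8 : Real.sqrt ((d - s : ℝ) * Real.log d) ≤ Real.sqrt (d * Real.log d) := by
      apply Real.sqrt_le_sqrt
      apply mul_le_mul_of_nonneg_right (by linarith) hlog
    linarith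

end Pool.Agent.N96.FF
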