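import Mathlib

set_option autoImplicit false

/-!
# Flats given by independent hyperplanes, hyperplanes missing few points, ranks at extreme points
-/

open scoped RealInnerProductSpace

namespace Pool.Agent.N96.FF

open Module

/-- the flat given by `r` hyperplanes with independent normals is contained in the range of an
affine map from `ℝ^(d-r)` -/
theorem flat_range {d n r : ℕ} (a : Fin n → EuclideanSpace ℝ (Fin d)) (b : Fin n → ℝ)
    (I : Finset (Fin n)) (hI : I.card = r) (hli : LinearIndepOn ℝ a (I : Set (Fin n))) :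
    ∃ f : EuclideanSpace ℝ (Fin (d - r)) →ᵃ[ℝ] EuclideanSpace ℝ (Fin d),
      {x | ∀ i ∈ I, ⟪a i, x⟫ = b i} ⊆ Set.range f := by
  classical
  by_cases hne : {x : EuclideanSpace ℝ (Fin d) | ∀ i ∈ I, ⟪a i, x⟫ = b i}.Nonempty
  · obtain ⟨p, hp⟩ := hne
    set S : Submodule ℝ (EuclideanSpace ℝ (Fin d)) :=
      Submodule.span ℝ (a '' (I : Set (Fin n))) with hS
    have hSr : finrank ℝ S = r := by
      have h1 : a '' (I : Set (Fin n)) = Set.range (fun i : (I : Set (Fin n)) => a i) := by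
        ext x; simp
      rw [hS, h1, finrank_span_eq_card hli]
      simp [hI]
    set W : Submodule ℝ (EuclideanSpace ℝ (Fin d)) := Sᗮ with hW
    have hWd : finrank ℝ W = d - r := by
      have h2 := Submodule.finrank_add_finrank_orthogonal S
      rw [finrank_euclideanSpace_fin] at h2
      rw [hW]
      omega
    let φ : W ≃ₗᵢ[ℝ] EuclideanSpace ℝ (Fin (d - r)) :=
      ((stdOrthonormalBasis ℝ W).reindex (finCongr hWd)).repr
    let A : EuclideanSpace ℝ (Fin (d - r)) →ᵃ[ℝ] EuclideanSpace ℝ (Fin d) :=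
      { toFun := fun x => p + ((φ.symm x : W) : EuclideanSpace ℝ (Fin d))
        linear := W.subtype ∘ₗ φ.symm.toLinearEquiv.toLinearMap
        map_vadd' := fun x v => by
          simp only [vadd_eq_add, map_add, Submodule.coe_add, LinearMap.comp_apply,
            Submodule.subtype_apply]
          show p + (((φ.symm v : W) : EuclideanSpace ℝ (Fin d)) + (φ.symm x : W)) =
            ((φ.symm v : W) : EuclideanSpace ℝ (Fin d)) + (p + (φ.symm x : W))
          abel }
    refine ⟨A, fun x hx => ?_⟩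
    have h1 : x - p ∈ W := by
      rw [hW, hS, Submodule.mem_orthogonal]
      intro u hu
      induction hu using Submodule.span_induction with
      | mem y hy =>
        obtain ⟨i, hi, rfl⟩ := hy
        rw [inner_sub_right, hx i hi, hp i hi, sub_self]
      | zero => simp
      | add y z _ _ hy hz => rw [inner_add_left, hy, hz, add_zero]
      | smul c y _ hy => rw [inner_smul_left, hy, mul_zero]
    refine ⟨φ ⟨x - p, h1⟩, ?_⟩
    show p + ((φ.symm (φ ⟨x - p, h1⟩) : W) : EuclideanSpace ℝ (Fin d)) = x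
    rw [φ.symm_apply_apply]
    show p + (x - p) = x
    abel
  · refine ⟨AffineMap.const ℝ _ 0, fun x hx => absurd ⟨x, hx⟩ hne⟩

/-- If all points of `Y` lie on all but at most `k` of the hyperplanes, then all but at most
`(d + 1) k` hyperplanes contain `Y`. -/
theorem few_relevant {d n k : ℕ} (a : Fin n → EuclideanSpace ℝ (Fin d)) (b : Fin n → ℝ)
    (Y : Set (EuclideanSpace ℝ (Fin d))) (hY : ∀ v ∈ Y, {i | ⟪a i, v⟫ ≠ b i}.ncard ≤ k) :
    ∃ M : Finset (Fin n), M.card ≤ (d + 1) * k ∧ ∀ v ∈ Y, ∀ i, ⟪a i, v⟫ ≠ b i → i ∈ M := by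
  classical
  let φ : EuclideanSpace ℝ (Fin d) → EuclideanSpace ℝ (Fin d) × ℝ := fun v => (v, 1)
  obtain ⟨B, hBY, hspan, hli⟩ := exists_linearIndependent ℝ (φ '' Y)
  have hBfin : B.Finite := hli.setFinite
  have : Fintype B := hBfin.fintype
  have hBc : B.toFinset.card ≤ d + 1 := by
    have h1 := hli.fintype_card_le_finrank
    rw [Module.finrank_prod, finrank_euclideanSpace_fin, Module.finrank_self] at h1
    rwa [Set.toFinset_card]
  refine ⟨B.toFinset.biUnion (fun q => (Finset.univ : Finset (Fin n)).filter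
    (fun i => ⟪a i, q.1⟫ ≠ b i)), ?_, ?_⟩
  · refine Finset.card_biUnion_le.trans ?_
    calc ∑ q ∈ B.toFinset, (Finset.univ.filter (fun i => ⟪a i, q.1⟫ ≠ b i)).card
        ≤ ∑ _q ∈ B.toFinset, k := by
          refine Finset.sum_le_sum fun q hq => ?_
          obtain ⟨v, hv, hvq⟩ := hBY (Set.mem_toFinset.1 hq)
          have h2 := hY v hv
          rw [← hvq]
          have h3 : {i | ⟪a i, v⟫ ≠ b i} =
              ((Finset.univ.filter (fun i => ⟪a i, v⟫ ≠ b i) : Finset (Fin n)) :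
                Set (Fin n)) := by
            ext i; simp
          rw [h3, Set.ncard_coe_finset] at h2
          exact h2
      _ = B.toFinset.card * k := by rw [Finset.sum_const, smul_eq_mul]
      _ ≤ (d + 1) * k := Nat.mul_le_mul_right _ hBc
  · intro v hv i hi
    rw [Finset.mem_biUnion]
    by_contra hcon
    push Not at hcon
    apply hi
    -- the functional `(x, t) ↦ ⟪a i, x⟫ - t b i` vanishes on the span
    let ℓ : EuclideanSpace ℝ (Fin d) × ℝ →ₗ[ℝ] ℝ :=
      (innerₗ (EuclideanSpace ℝ (Fin d)) (a i)).comp (LinearMap.fst ℝ _ ℝ) -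
        (b i) • LinearMap.snd ℝ (EuclideanSpace ℝ (Fin d)) ℝ
    have hℓ : ∀ x t, ℓ (x, t) = ⟪a i, x⟫ - b i * t := fun x t => rfl
    have h4 : Submodule.span ℝ B ≤ LinearMap.ker ℓ := by
      rw [Submodule.span_le]
      intro q hq
      obtain ⟨u, hu, huq⟩ := hBY hq
      have h5 := hcon q (Set.mem_toFinset.2 hq)
      rw [Finset.mem_filter] at h5
      push Not at h5
      have h6 := h5 (Finset.mem_univ i)
      rw [← huq] at h6
      rw [SetLike.mem_coe, LinearMap.mem_ker, ← huq]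
      show ℓ (u, 1) = 0
      rw [hℓ, mul_one]
      exact sub_eq_zero.2 h6
    have h7 : φ v ∈ Submodule.span ℝ B := by
      rw [hspan]
      exact Submodule.subset_span ⟨v, hv, rfl⟩
    have h8 := h4 h7
    rw [LinearMap.mem_ker] at h8
    have h9 : ℓ (v, 1) = 0 := h8
    rw [hℓ, mul_one] at h9
    exact sub_eq_zero.1 h9

/-- extreme points of the intersection of `n` half-spaces with a convex set which is flat there -/
theorem rank_extreme {d n : ℕ} (a : Fin n → EuclideanSpace ℝ (Fin d)) (b : Fin n → ℝ)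
    (C : Set (EuclideanSpace ℝ (Fin d))) (hC : Convex ℝ C)
    (v : EuclideanSpace ℝ (Fin d)) (W : Submodule ℝ (EuclideanSpace ℝ (Fin d)))
    (hCW : ∀ w ∈ W, ∃ ε : ℝ, 0 < ε ∧ v + ε • w ∈ C ∧ v - ε • w ∈ C)
    (hv : v ∈ Set.extremePoints ℝ {x | x ∈ C ∧ ∀ i, ⟪a i, x⟫ ≤ b i}) :
    finrank ℝ W ≤ finrank ℝ (Submodule.span ℝ (a '' {i | ⟪a i, v⟫ = b i})) := by
  classical
  by_contra hcon
  push Not at hcon
  set S := Submodule.span ℝ (a '' {i | ⟪a i, v⟫ = b i}) with hS
  -- a common vector of `W` and `Sᗮ`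
  have h1 := Submodule.finrank_add_finrank_orthogonal S
  have h2 := Submodule.finrank_sup_add_finrank_inf_eq W Sᗮ
  have h3 : finrank ℝ (W ⊔ Sᗮ : Submodule ℝ (EuclideanSpace ℝ (Fin d))) ≤
      finrank ℝ (EuclideanSpace ℝ (Fin d)) := Submodule.finrank_le _
  have h4 : 0 < finrank ℝ (W ⊓ Sᗮ : Submodule ℝ (EuclideanSpace ℝ (Fin d))) := by omega
  have h5 : (W ⊓ Sᗮ : Submodule ℝ (EuclideanSpace ℝ (Fin d))) ≠ ⊥ := by
    intro h
    rw [h, finrank_bot] at h4
    exact lt_irrefl _ h4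
  obtain ⟨w, hw, hw0⟩ := Submodule.exists_mem_ne_zero_of_ne_bot h5
  obtain ⟨hwW, hwS⟩ := Submodule.mem_inf.1 hw
  have hwa : ∀ i, ⟪a i, v⟫ = b i → ⟪a i, w⟫ = 0 := by
    intro i hi
    have h6 : a i ∈ S := Submodule.subset_span (Set.mem_image_of_mem a hi)
    exact Submodule.inner_right_of_mem_orthogonal h6 hwS
  -- small multiples of `w` may be added and subtracted
  obtain ⟨ε₁, hε₁, hε₁'⟩ : ∃ ε : ℝ, 0 < ε ∧ ∀ i, ⟪a i, v⟫ < b i →
      ε * |⟪a i, w⟫| ≤ b i - ⟪a i, v⟫ := by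
    have hfin : ∀ s : Finset (Fin n), ∃ ε : ℝ, 0 < ε ∧ ∀ i ∈ s, ⟪a i, v⟫ < b i →
        ε * |⟪a i, w⟫| ≤ b i - ⟪a i, v⟫ := by
      intro s
      induction s using Finset.induction_on with
      | empty => exact ⟨1, one_pos, by simp⟩
      | insert i s _ ih =>
        obtain ⟨ε, hε, h⟩ := ih
        by_cases hi : ⟪a i, v⟫ < b i
        · refine ⟨min ε ((b i - ⟪a i, v⟫) / (|⟪a i, w⟫| + 1)), ?_, ?_⟩
          · have : 0 < b i - ⟪a i, v⟫ := by linarith
            have h' : 0 < |⟪a i, w⟫| + 1 := by positivity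
            exact lt_min hε (div_pos this h')
          · intro j hj hj'
            rcases Finset.mem_insert.1 hj with rfl | hj
            · have h' : 0 < |⟪a j, w⟫| + 1 := by positivity
              calc min ε ((b j - ⟪a j, v⟫) / (|⟪a j, w⟫| + 1)) * |⟪a j, w⟫|
                  ≤ ((b j - ⟪a j, v⟫) / (|⟪a j, w⟫| + 1)) * |⟪a j, w⟫| := by
                    gcongr
                    exact min_le_right _ _
                _ ≤ ((b j - ⟪a j, v⟫) / (|⟪a j, w⟫| + 1)) * (|⟪a j, w⟫| + 1) := by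
                    apply mul_le_mul_of_nonneg_left (by linarith)
                    apply div_nonneg (by linarith) h'.le
                _ = _ := div_mul_cancel₀ _ h'.ne'
            · exact (mul_le_mul_of_nonneg_right (min_le_left _ _) (abs_nonneg _)).trans (h j hj hj')
        · refine ⟨ε, hε, fun j hj hj' => ?_⟩
          rcases Finset.mem_insert.1 hj with rfl | hj
          · exact absurd hj' hi
          · exact h j hj hj'
    obtain ⟨ε, hε, h⟩ := hfin Finset.univ
    exact ⟨ε, hε, fun i => h i (Finset.mem_univ i)⟩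
  obtain ⟨ε₂, hε₂, hC1, hC2⟩ := hCW w hwW
  obtain ⟨ε, hε, hεε₁, hεε₂⟩ : ∃ ε : ℝ, 0 < ε ∧ ε ≤ ε₁ ∧ ε ≤ ε₂ :=
    ⟨min ε₁ ε₂, lt_min hε₁ hε₂, min_le_left _ _, min_le_right _ _⟩
  have hε' : ∀ i, ⟪a i, v⟫ < b i → ε * |⟪a i, w⟫| ≤ b i - ⟪a i, v⟫ := fun i hi =>
    (mul_le_mul_of_nonneg_right hεε₁ (abs_nonneg _)).trans (hε₁' i hi)
  have hCs : ∀ s : ℝ, |s| ≤ ε → v + s • w ∈ C := by
    intro s hs
    -- `v + s w` lies on the segment from `v - ε₂ w` to `v + ε₂ w`
    have h6 := abs_le.1 (hs.trans hεε₂)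
    have h7 : v + s • w = ((ε₂ + s) / (2 * ε₂)) • (v + ε₂ • w) +
        ((ε₂ - s) / (2 * ε₂)) • (v - ε₂ • w) := by
      have e1 : (ε₂ + s) / (2 * ε₂) + (ε₂ - s) / (2 * ε₂) = 1 := by field_simp; ring
      have e2 : (ε₂ + s) / (2 * ε₂) * ε₂ - (ε₂ - s) / (2 * ε₂) * ε₂ = s := by field_simp; ring
      have e3 : ((ε₂ + s) / (2 * ε₂)) • (v + ε₂ • w) + ((ε₂ - s) / (2 * ε₂)) • (v - ε₂ • w) =
          ((ε₂ + s) / (2 * ε₂) + (ε₂ - s) / (2 * ε₂)) • v +
          ((ε₂ + s) / (2 * ε₂) * ε₂ - (ε₂ - s) / (2 * ε₂) * ε₂) • w := by module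
      rw [e3, e1, e2, one_smul]
    rw [h7]
    refine hC hC1 hC2 ?_ ?_ ?_
    · apply div_nonneg <;> linarith
    · apply div_nonneg <;> linarith
    · field_simp; ring
  obtain ⟨⟨hvC, hvb⟩, hext⟩ := hv
  have hmem : ∀ s : ℝ, |s| ≤ ε → v + s • w ∈ {x | x ∈ C ∧ ∀ i, ⟪a i, x⟫ ≤ b i} := by
    intro s hs
    refine ⟨hCs s hs, fun i => ?_⟩
    rw [inner_add_right, inner_smul_right]
    rcases (hvb i).lt_or_eq with hlt | heq
    · have h6 := hε' i hlt
      have h7 : s * ⟪a i, w⟫ ≤ ε * |⟪a i, w⟫| := by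
        calc s * ⟪a i, w⟫ ≤ |s * ⟪a i, w⟫| := le_abs_self _
          _ = |s| * |⟪a i, w⟫| := abs_mul _ _
          _ ≤ ε * |⟪a i, w⟫| := by gcongr
      linarith
    · rw [hwa i heq, mul_zero, add_zero, heq]
  have h8 := hext (hmem ε (by rw [abs_of_pos hε])) (hmem (-ε) (by rw [abs_neg, abs_of_pos hε]))
    (by
      refine ⟨1 / 2, 1 / 2, by norm_num, by norm_num, by norm_num, ?_⟩
      module)
  have h9 : ε • w = 0 := by simpa using h8
  rcases smul_eq_zero.1 h9 with h | h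
  · exact hε.ne' h
  · exact hw0 h

/-- rank and number of hyperplanes not containing the point -/
theorem rank_add_miss {d n : ℕ} (a : Fin n → EuclideanSpace ℝ (Fin d)) (b : Fin n → ℝ)
    (v : EuclideanSpace ℝ (Fin d)) :
    finrank ℝ (Submodule.span ℝ (a '' {i | ⟪a i, v⟫ = b i})) + {i | ⟪a i, v⟫ ≠ b i}.ncard ≤ n := by
  classical
  set A : Finset (Fin n) := Finset.univ.filter (fun i => ⟪a i, v⟫ = b i) with hA
  have h1 : {i | ⟪a i, v⟫ = b i} = (A : Set (Fin n)) := by ext i; simp [hA]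
  have h2 : {i | ⟪a i, v⟫ ≠ b i} = ((Aᶜ : Finset (Fin n)) : Set (Fin n)) := by ext i; simp [hA]
  have h3 : finrank ℝ (Submodule.span ℝ (a '' (A : Set (Fin n)))) ≤ A.card := by
    have h : ((A.image a : Finset (EuclideanSpace ℝ (Fin d))) :
        Set (EuclideanSpace ℝ (Fin d))) = a '' (A : Set (Fin n)) := by simp
    rw [← h]
    exact (finrank_span_finset_le_card _).trans Finset.card_image_le
  have h4 := Finset.card_add_card_compl A
  rw [Fintype.card_fin] at h4
  rw [h1, h2, Set.ncard_coe_finset]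
  omega

end Pool.Agent.N96.FF
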