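import Pool.Agent.R753.HS.D
import Pool.Agent.N96.FF.Comb
import Pool.Agent.N96.FF.Flat

set_option autoImplicit false

/-!
# Convex bodies whose extreme points lie on almost all of given hyperplanes
-/

open scoped RealInnerProductSpace

namespace Pool.Agent.N96.FF

open Module Pool.Agent.R753

/-- `HS.extreme` for any finite index type -/
theorem extreme' {n : ℕ} {ι : Type} [Fintype ι] {K : Set (EuclideanSpace ℝ (Fin n))}
    (hK : Convex ℝ K) (kK : IsCompact K) (iK : (interior K).Nonempty) (d : ι → ℕ)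
    (f : ∀ i, EuclideanSpace ℝ (Fin (d i)) →ᵃ[ℝ] EuclideanSpace ℝ (Fin n))
    (hf : K.extremePoints ℝ ⊆ ⋃ i, Set.range (f i)) (x : ℝ) (hx : ∑ i, HS.beta (d i) ≤ x) :
    ∃ S : Finset (EuclideanSpace ℝ (Fin n)), (S.card : ℝ) ≤ x ∧
      K ⊆ ⋃ v ∈ S, (fun x => v + x) '' interior K := by
  let e := (Fintype.equivFin ι).symm
  have h0 : 0 ≤ ∑ i, HS.beta (d i) := Finset.sum_nonneg fun i _ => by
    have := HS.beta_mono (Nat.zero_le (d i))
    have h0 : HS.beta 0 = 1 := by simp [HS.beta]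
    linarith
  obtain ⟨S, hS, hc⟩ := HS.extreme hK kK iK (fun j => d (e j)) (fun j => f (e j)) (by
    intro x hx
    obtain ⟨i, hi⟩ := Set.mem_iUnion.1 (hf hx)
    obtain ⟨j, rfl⟩ := e.surjective i
    exact Set.mem_iUnion.2 ⟨j, hi⟩) ⌊x⌋₊ (by
    rw [Equiv.sum_comp e (fun i => HS.beta (d i))]
    exact hx.trans_lt (Nat.lt_floor_add_one x))
  exact ⟨S, (by exact_mod_cast hS : (S.card : ℝ) ≤ (⌊x⌋₊ : ℝ)).trans
    (Nat.floor_le (h0.trans hx)), hc⟩

lemma beta_zero : HS.beta 0 = 1 := by simp [HS.beta]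

lemma beta_nonneg (d : ℕ) : 0 ≤ HS.beta d := by
  have := HS.beta_mono (Nat.zero_le d)
  rw [beta_zero] at this
  linarith

/-- **The general bound**, with the share `p` of the most popular flat as a parameter. -/
theorem main0 {d n k r j : ℕ} (a : Fin n → EuclideanSpace ℝ (Fin d)) (b : Fin n → ℝ)
    {K : Set (EuclideanSpace ℝ (Fin d))} (hK : Convex ℝ K) (kK : IsCompact K)
    (iK : (interior K).Nonempty) (e : Fin j → ℕ)
    (g : ∀ i, EuclideanSpace ℝ (Fin (e i)) →ᵃ[ℝ] EuclideanSpace ℝ (Fin d))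
    (hk : ∀ v ∈ K.extremePoints ℝ, (∀ i, v ∉ Set.range (g i)) →
      {i | ⟪a i, v⟫ ≠ b i}.ncard ≤ k)
    (p : ℝ) (hp0 : 0 < p) (hp1 : p ≤ 1)
    (hpop : ∀ Q : Finset (Finset (Fin n)), Q.Nonempty →
      (∀ A ∈ Q, ∃ v ∈ K.extremePoints ℝ, (∀ i, v ∉ Set.range (g i)) ∧
        ∀ i, i ∈ A ↔ ⟪a i, v⟫ = b i) →
      ∃ I : Finset (Fin n), I.card = r ∧ LinearIndepOn ℝ a (I : Set (Fin n)) ∧
        p * Q.card ≤ (Q.filter (fun A => I ⊆ A)).card) :
    ∃ S : Finset (EuclideanSpace ℝ (Fin d)), (S.card : ℝ) ≤ ∑ i, HS.beta (e i) +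
      (k * Real.log ((d + 1) * k + 1) / p + 1) * HS.beta (d - r) ∧
      K ⊆ ⋃ v ∈ S, (fun x => v + x) '' interior K := by
  classical
  set Y : Set (EuclideanSpace ℝ (Fin d)) :=
    {v | v ∈ K.extremePoints ℝ ∧ ∀ i, v ∉ Set.range (g i)} with hYdef
  obtain ⟨M, hMc, hM⟩ := few_relevant (k := k) a b Y (fun v hv => hk v hv.1 hv.2)
  let pat : EuclideanSpace ℝ (Fin d) → Finset (Fin n) := fun v =>
    Finset.univ.filter (fun i => ⟪a i, v⟫ = b i)
  set P : Finset (Finset (Fin n)) := Finset.univ.filter (fun A => ∃ v ∈ Y, pat v = A) with hP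
  have hpatc : ∀ v, ((pat v)ᶜ : Finset (Fin n)) = Finset.univ.filter (fun i => ⟪a i, v⟫ ≠ b i) := by
    intro v; ext i; simp [pat]
  have hpatc' : ∀ v ∈ Y, ((pat v)ᶜ : Finset (Fin n)).card ≤ k := by
    intro v hv
    have h1 := hk v hv.1 hv.2
    have h2 : {i | ⟪a i, v⟫ ≠ b i} = (((pat v)ᶜ : Finset (Fin n)) : Set (Fin n)) := by
      rw [hpatc]; ext i; simp
    rwa [h2, Set.ncard_coe_finset] at h1
  -- the number of patterns
  have hPc : P.card ≤ (M.card + 1) ^ k := by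
    have h1 : P.card = (P.image (fun A => Aᶜ)).card :=
      (Finset.card_image_of_injective _ compl_injective).symm
    rw [h1]
    refine card_small M k _ ?_
    intro B hB
    obtain ⟨A, hA, rfl⟩ := Finset.mem_image.1 hB
    obtain ⟨v, hv, rfl⟩ := (Finset.mem_filter.1 hA).2
    refine ⟨fun i hi => ?_, hpatc' v hv⟩
    rw [hpatc] at hi
    exact hM v hv i (Finset.mem_filter.1 hi).2
  set L : ℝ := k * Real.log ((d + 1) * k + 1) with hL
  have hL0 : 0 ≤ L := by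
    have : (1 : ℝ) ≤ (d + 1) * k + 1 := by
      have : (0 : ℝ) ≤ (d + 1) * k := by positivity
      linarith
    have := Real.log_nonneg this
    positivity
  have hPexp : (P.card : ℝ) ≤ Real.exp L := by
    have h1 : (P.card : ℝ) ≤ ((d + 1) * k + 1 : ℝ) ^ k := by
      calc (P.card : ℝ) ≤ ((M.card + 1 : ℕ) : ℝ) ^ k := by exact_mod_cast hPc
        _ ≤ ((d + 1) * k + 1 : ℝ) ^ k := by
          apply pow_le_pow_left₀ (by positivity)
          have : ((M.card : ℕ) : ℝ) ≤ (((d + 1) * k : ℕ) : ℝ) := by exact_mod_cast hMc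
          push_cast at this ⊢
          linarith
    have h2 : Real.exp L = ((d + 1) * k + 1 : ℝ) ^ k := by
      rw [hL, mul_comm, Real.exp_mul, Real.exp_log (by positivity), Real.rpow_natCast]
    rw [h2]; exact h1
  obtain ⟨F, hFc, hFg, hFcov⟩ := greedy' P (fun I A => I ⊆ A)
    (fun I : Finset (Fin n) => I.card = r ∧ LinearIndepOn ℝ a (I : Set (Fin n))) p L hp0 hp1
    hPexp hL0 (by
      intro Q hQ hQne
      obtain ⟨I, hI, hli, hcard⟩ := hpop Q hQne (by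
        intro A hA
        obtain ⟨v, hv, rfl⟩ := (Finset.mem_filter.1 (hQ hA)).2
        exact ⟨v, hv.1, hv.2, fun i => by simp [pat]⟩)
      exact ⟨I, ⟨hI, hli⟩, hcard⟩)
  -- the flats
  choose h hh using fun I : {I // I ∈ F} => flat_range a b I.1 (hFg I.1 I.2).1 (hFg I.1 I.2).2
  let dd : {I // I ∈ F} ⊕ Fin j → ℕ := fun i => match i with
    | Sum.inl _ => d - r
    | Sum.inr i => e i
  let f : ∀ i, EuclideanSpace ℝ (Fin (dd i)) →ᵃ[ℝ] EuclideanSpace ℝ (Fin d) := fun i => match i with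
    | Sum.inl I => h I
    | Sum.inr i => g i
  refine extreme' hK kK iK dd f ?_ _ ?_
  · intro v hv
    by_cases hvX : ∀ i, v ∉ Set.range (g i)
    · have hvY : v ∈ Y := ⟨hv, hvX⟩
      obtain ⟨I, hI, hIv⟩ := hFcov (pat v) (Finset.mem_filter.2
        ⟨Finset.mem_univ _, v, hvY, rfl⟩)
      refine Set.mem_iUnion.2 ⟨Sum.inl ⟨I, hI⟩, hh ⟨I, hI⟩ ?_⟩
      intro i hi
      exact (Finset.mem_filter.1 (hIv hi)).2
    · push Not at hvX
      obtain ⟨i, hi⟩ := hvX
      exact Set.mem_iUnion.2 ⟨Sum.inr i, hi⟩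
  · rw [Fintype.sum_sum_type]
    have h1 : ∑ I : {I // I ∈ F}, HS.beta (dd (Sum.inl I)) = F.card * HS.beta (d - r) := by
      show ∑ _I : {I // I ∈ F}, HS.beta (d - r) = _
      rw [Finset.sum_const, Finset.card_univ, Fintype.card_coe, nsmul_eq_mul]
    have h2 : ∑ i : Fin j, HS.beta (dd (Sum.inr i)) = ∑ i, HS.beta (e i) := rfl
    rw [h1, h2]
    have h3 : (F.card : ℝ) * HS.beta (d - r) ≤ (L / p + 1) * HS.beta (d - r) :=
      mul_le_mul_of_nonneg_right hFc (beta_nonneg _)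
    linarith

/-- Only exceptional flats. -/
theorem main00 {d j : ℕ} {K : Set (EuclideanSpace ℝ (Fin d))} (hK : Convex ℝ K)
    (kK : IsCompact K) (iK : (interior K).Nonempty) (e : Fin j → ℕ)
    (g : ∀ i, EuclideanSpace ℝ (Fin (e i)) →ᵃ[ℝ] EuclideanSpace ℝ (Fin d))
    (hY : ¬ ∃ v ∈ K.extremePoints ℝ, ∀ i, v ∉ Set.range (g i)) :
    ∃ S : Finset (EuclideanSpace ℝ (Fin d)), (S.card : ℝ) ≤ ∑ i, HS.beta (e i) ∧
      K ⊆ ⋃ v ∈ S, (fun x => v + x) '' interior K := by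
  refine extreme' hK kK iK e g ?_ _ le_rfl
  intro v hv
  by_contra hcon
  exact hY ⟨v, hv, fun i hi => hcon (Set.mem_iUnion.2 ⟨i, hi⟩)⟩

/-- **The bound for extreme points which miss at most `k` hyperplanes.** -/
theorem main1 {d n k ρ r j : ℕ} (hr : r ≤ ρ) (a : Fin n → EuclideanSpace ℝ (Fin d))
    (b : Fin n → ℝ) {K : Set (EuclideanSpace ℝ (Fin d))} (hK : Convex ℝ K) (kK : IsCompact K)
    (iK : (interior K).Nonempty) (e : Fin j → ℕ)
    (g : ∀ i, EuclideanSpace ℝ (Fin (e i)) →ᵃ[ℝ] EuclideanSpace ℝ (Fin d))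
    (hY : ∀ v ∈ K.extremePoints ℝ, (∀ i, v ∉ Set.range (g i)) →
      {i | ⟪a i, v⟫ ≠ b i}.ncard ≤ k ∧
      ρ ≤ finrank ℝ (Submodule.span ℝ (a '' {i | ⟪a i, v⟫ = b i}))) :
    ∃ S : Finset (EuclideanSpace ℝ (Fin d)), (S.card : ℝ) ≤ ∑ i, HS.beta (e i) +
      (k * Real.log ((d + 1) * k + 1) * ((ρ + k).choose r / ρ.choose r) + 1) *
        HS.beta (d - r) ∧
      K ⊆ ⋃ v ∈ S, (fun x => v + x) '' interior K := by
  classical
  have hc1 : (0 : ℝ) < ρ.choose r := by exact_mod_cast Nat.choose_pos hr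
  have hc2 : (0 : ℝ) < (ρ + k).choose r := by exact_mod_cast Nat.choose_pos (by omega)
  set p : ℝ := ρ.choose r / (ρ + k).choose r with hp
  have hp0 : 0 < p := by positivity
  have hp1 : p ≤ 1 := by
    rw [hp, div_le_one hc2]
    exact_mod_cast Nat.choose_le_choose r (by omega)
  have h4 : ∀ L : ℝ, L / p = L * ((ρ + k).choose r / ρ.choose r) := by
    intro L
    rw [hp, div_div_eq_mul_div, mul_div_assoc]
  rw [← h4]
  refine main0 a b hK kK iK e g (fun v hv hvX => (hY v hv hvX).1) p hp0 hp1 ?_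
  intro Q hQne hQ
  obtain ⟨I, hI, hli, hcard⟩ := popular a k ρ Q hQne
    (by
      intro A hA
      obtain ⟨v, hv, hvX, hvA⟩ := hQ A hA
      have h1 := (hY v hv hvX).1
      have h2 : {i | ⟪a i, v⟫ ≠ b i} = ((Aᶜ : Finset (Fin n)) : Set (Fin n)) := by
        ext i; simp [hvA]
      rwa [h2, Set.ncard_coe_finset] at h1)
    (by
      intro A hA
      obtain ⟨v, hv, hvX, hvA⟩ := hQ A hA
      have h1 := (hY v hv hvX).2
      have h2 : {i | ⟪a i, v⟫ = b i} = (A : Set (Fin n)) := by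
        ext i; simp [hvA]
      rwa [h2] at h1) r hr
  refine ⟨I, hI, hli, ?_⟩
  have h3 : (Q.card : ℝ) * ρ.choose r ≤ (Q.filter (fun A => I ⊆ A)).card *
      (ρ + k).choose r := by exact_mod_cast hcard
  rw [hp, div_mul_eq_mul_div, div_le_iff₀ hc2]
  linarith

/-- **The bound in terms of the number of flats.** -/
theorem main2 {d n k ρ r j t : ℕ} (hr : r ≤ ρ) (a : Fin n → EuclideanSpace ℝ (Fin d))
    (b : Fin n → ℝ) {K : Set (EuclideanSpace ℝ (Fin d))} (hK : Convex ℝ K) (kK : IsCompact K)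
    (iK : (interior K).Nonempty) (e : Fin j → ℕ)
    (g : ∀ i, EuclideanSpace ℝ (Fin (e i)) →ᵃ[ℝ] EuclideanSpace ℝ (Fin d))
    (hY : ∀ v ∈ K.extremePoints ℝ, (∀ i, v ∉ Set.range (g i)) →
      {i | ⟪a i, v⟫ ≠ b i}.ncard ≤ k ∧
      ρ ≤ finrank ℝ (Submodule.span ℝ (a '' {i | ⟪a i, v⟫ = b i})))
    (ht : {I : Finset (Fin n) | I.card = r ∧ LinearIndepOn ℝ a (I : Set (Fin n)) ∧
      ∃ v ∈ K.extremePoints ℝ, ∀ i ∈ I, ⟪a i, v⟫ = b i}.ncard ≤ t) :
    ∃ S : Finset (EuclideanSpace ℝ (Fin d)), (S.card : ℝ) ≤ ∑ i, HS.beta (e i) +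
      (k * Real.log ((d + 1) * k + 1) * (t / ρ.choose r) + 1) * HS.beta (d - r) ∧
      K ⊆ ⋃ v ∈ S, (fun x => v + x) '' interior K := by
  classical
  have hc1 : (0 : ℝ) < ρ.choose r := by exact_mod_cast Nat.choose_pos hr
  have hL0 : (0 : ℝ) ≤ k * Real.log ((d + 1) * k + 1) := by
    have : (1 : ℝ) ≤ (d + 1) * k + 1 := by
      have : (0 : ℝ) ≤ (d + 1) * k := by positivity
      linarith
    have := Real.log_nonneg this
    positivity
  by_cases hex : ∃ v ∈ K.extremePoints ℝ, ∀ i, v ∉ Set.range (g i)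
  swap
  · obtain ⟨S, hS, hc⟩ := main00 hK kK iK e g hex
    refine ⟨S, hS.trans ?_, hc⟩
    have h1 := beta_nonneg (d - r)
    have h2 : 0 ≤ (k * Real.log ((d + 1) * k + 1) * (t / ρ.choose r) + 1) * HS.beta (d - r) := by
      positivity
    linarith
  set TT : Set (Finset (Fin n)) := {I : Finset (Fin n) | I.card = r ∧
      LinearIndepOn ℝ a (I : Set (Fin n)) ∧
      ∃ v ∈ K.extremePoints ℝ, ∀ i ∈ I, ⟪a i, v⟫ = b i} with hTT
  have hTTfin : TT.Finite := Set.toFinite _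
  set T : Finset (Finset (Fin n)) := hTTfin.toFinset with hT
  have hTc : T.card ≤ t := by
    rw [Set.ncard_eq_toFinset_card TT hTTfin] at ht
    exact ht
  have hpop : ∀ Q : Finset (Finset (Fin n)), Q.Nonempty →
      (∀ A ∈ Q, ∃ v ∈ K.extremePoints ℝ, (∀ i, v ∉ Set.range (g i)) ∧
        ∀ i, i ∈ A ↔ ⟪a i, v⟫ = b i) →
      ∃ I : Finset (Fin n), I.card = r ∧ LinearIndepOn ℝ a (I : Set (Fin n)) ∧
        Q.card * ρ.choose r ≤ (Q.filter (fun A => I ⊆ A)).card * t := by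
    intro Q hQne hQ
    obtain ⟨I, hI, hli, hcard⟩ := popular' a ρ r Q
      (by
        intro A hA
        obtain ⟨v, hv, hvX, hvA⟩ := hQ A hA
        have h1 := (hY v hv hvX).2
        have h2 : {i | ⟪a i, v⟫ = b i} = (A : Set (Fin n)) := by
          ext i; simp [hvA]
        rwa [h2] at h1) hQne hr T (by
        intro I hI hli hIA
        obtain ⟨A, hA, hIA⟩ := hIA
        obtain ⟨v, hv, hvX, hvA⟩ := hQ A hA
        rw [hT, Set.Finite.mem_toFinset]
        exact ⟨hI, hli, v, hv, fun i hi => (hvA i).1 (hIA hi)⟩)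
    exact ⟨I, hI, hli, hcard.trans (Nat.mul_le_mul_left _ hTc)⟩
  have htpos : 0 < t ∧ ρ.choose r ≤ t := by
    obtain ⟨v, hv, hvX⟩ := hex
    obtain ⟨I, -, -, h1⟩ := hpop {Finset.univ.filter (fun i => ⟪a i, v⟫ = b i)}
      (Finset.singleton_nonempty _) (by
        intro A hA
        rw [Finset.mem_singleton] at hA
        exact ⟨v, hv, hvX, fun i => by simp [hA]⟩)
    rw [Finset.card_singleton, one_mul] at h1
    have h2 : (({Finset.univ.filter (fun i => ⟪a i, v⟫ = b i)} :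
        Finset (Finset (Fin n))).filter (fun A => I ⊆ A)).card ≤ 1 := by
      refine (Finset.card_filter_le _ _).trans ?_
      rw [Finset.card_singleton]
    have h3 : ρ.choose r ≤ t := h1.trans ((Nat.mul_le_mul_right t h2).trans (by omega))
    exact ⟨lt_of_lt_of_le (Nat.choose_pos hr) h3, h3⟩
  have ht0 : (0 : ℝ) < t := by exact_mod_cast htpos.1
  set p : ℝ := ρ.choose r / t with hp
  have hp0 : 0 < p := by positivity
  have hp1 : p ≤ 1 := by
    rw [hp, div_le_one ht0]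
    exact_mod_cast htpos.2
  have h4 : ∀ L : ℝ, L / p = L * (t / ρ.choose r) := by
    intro L
    rw [hp, div_div_eq_mul_div, mul_div_assoc]
  rw [← h4]
  refine main0 a b hK kK iK e g (fun v hv hvX => (hY v hv hvX).1) p hp0 hp1 ?_
  intro Q hQne hQ
  obtain ⟨I, hI, hli, hcard⟩ := hpop Q hQne hQ
  refine ⟨I, hI, hli, ?_⟩
  have h3 : (Q.card : ℝ) * ρ.choose r ≤ (Q.filter (fun A => I ⊆ A)).card * t := by
    exact_mod_cast hcard
  rw [hp, div_mul_eq_mul_div, div_le_iff₀ ht0]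
  linarith

/-- adding a set does not increase the covering number -/
theorem cover_add {d : ℕ} {K : Set (EuclideanSpace ℝ (Fin d))} (L : Set (EuclideanSpace ℝ (Fin d)))
    {S : Finset (EuclideanSpace ℝ (Fin d))}
    (h : K ⊆ ⋃ v ∈ S, (fun x => v + x) '' interior K) :
    (Set.image2 (· + ·) K L) ⊆
      ⋃ v ∈ S, (fun x => v + x) '' interior (Set.image2 (· + ·) K L) := by
  rintro _ ⟨y, hy, l, hl, rfl⟩
  have h1 := h hy
  rw [Set.mem_iUnion₂] at h1
  obtain ⟨v, hv, z, hz, rfl⟩ := h1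
  refine Set.mem_iUnion₂.2 ⟨v, hv, z + l, ?_, ?_⟩
  · have h2 : (fun x : EuclideanSpace ℝ (Fin d) => x + l) '' interior K ⊆
        interior (Set.image2 (· + ·) K L) := by
      apply interior_maximal
      · rintro _ ⟨x, hx, rfl⟩
        exact ⟨x, interior_subset hx, l, hl, rfl⟩
      · exact (Homeomorph.addRight l).isOpenMap _ isOpen_interior
    exact h2 ⟨z, hz, rfl⟩
  · show v + (z + l) = (v + z) + l
    abel

end Pool.Agent.N96.FF
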